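import Pool.Agent.Helper71.DS.Run

/-!
# Divisibility of the function of two letters
-/

set_option autoImplicit false
set_option linter.unusedSectionVars false

namespace Pool.Agent.Helper71.DS

open Pool.Agent.H777R4.DM
open Pool.Agent.Q299.LK (zz zz_append zz_cons)
open Pool.Agent.Results.MP_ec2393_nt.LowestLetterPart

variable {R : Type} [CommRing R] [Algebra ℚ R]

theorem F_swap {P : A} {N m : ℕ} (hP : P ∈ LKV N m) (a : List R) : ∀ b : List R,
    GP P (st (a ++ b)) = GP P (st (b ++ a)) := by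
  induction a with
  | nil => intro b; simp
  | cons z a ih =>
    intro b
    rw [List.cons_append, ← F_rot hP, List.append_assoc, ih (b ++ [z])]
    simp

theorem F_shift {P : A} (hP : P ∈ LieX) (t : R) (zs : List R) (h : 2 ≤ zs.length) :
    GP P (st (zs.map fun z => t + z)) = GP P (st zs) := by
  rcases zs with _ | ⟨a, _ | ⟨b, zs⟩⟩
  · simp at h
  · simp at h
  · have := F_trans hP (t, 0) (a, 0) (b, 0) (st zs)
    refine Eq.trans ?_ this
    simp [st, Function.comp_def]

theorem T_GP {P : A} {N m : ℕ} (hP : P ∈ LKV N m) (z : R) (zs : List R) :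
    T P N ((z :: zs).map pw) = GP P (st (z :: zs)) := (GP_Sm (len_le hP) z zs).symm

theorem F_two {P : A} {N m : ℕ} (hP : P ∈ LKV N m) (hm : 1 ≤ m) (x y : R) (a : ℕ)
    (ha : a + 1 ≤ m) :
    GP P (st (x :: List.replicate a 0 ++ y :: List.replicate (m - 1 - a) 0)) =
      (-1) ^ a * ((m - 1).choose a : R) * GP P (st (x :: y :: List.replicate (m - 1) 0)) := by
  have h := Q_eq hP hm (pw x) (pw y) a ha
  unfold Q at h
  have e1 : (x :: List.replicate a 0 ++ y :: List.replicate (m - 1 - a) 0).map pw =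
      pw x :: List.replicate a (pw (0 : R)) ++ pw y :: List.replicate (m - 1 - a) (pw 0) := by
    simp
  have e2 : (x :: y :: List.replicate (m - 1) 0).map pw =
      pw x :: List.replicate 0 (pw (0 : R)) ++ pw y :: List.replicate (m - 1 - 0) (pw 0) := by
    simp
  rw [← e1, ← e2] at h
  rw [List.cons_append] at h ⊢
  rw [T_GP hP, T_GP hP] at h
  exact h

theorem F_one {P : A} {N m : ℕ} (hP : P ∈ LKV N m) (hm : 1 ≤ m) (x : R) :
    GP P (st (x :: List.replicate m 0)) = 0 := by
  have h := F_circ hP x (List.replicate m 0) (by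
    intro h
    have := congrArg List.length h
    simp at this
    omega)
  simp only [List.rotate_replicate, Finset.sum_const, Finset.card_range, List.length_replicate,
    nsmul_eq_mul] at h
  have hu : IsUnit (m : R) := by
    have : (m : R) = algebraMap ℚ R (m : ℚ) := by simp
    rw [this]
    exact (IsUnit.mk0 _ (by positivity)).map _
  have h2 : (m : R) * GP P (st (x :: List.replicate m 0)) = (m : R) * 0 := by rw [h, mul_zero]
  exact hu.mul_left_cancel h2

/-- the function of two letters -/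
noncomputable def pp (P : A) (m : ℕ) (x y : R) : R :=
  GP P (st (x :: y :: List.replicate (m - 1) 0))

theorem pp_swap {P : A} {N m : ℕ} (hP : P ∈ LKV N m) (hm : 1 ≤ m) (x y : R) :
    pp P m y x = (-1) ^ (m - 1) * pp P m x y := by
  have h := F_two hP hm x y (m - 1) (by omega)
  rw [Nat.choose_self, Nat.sub_self, Nat.cast_one, mul_one] at h
  unfold pp
  rw [← h]
  have h2 := F_swap hP (x :: List.replicate (m - 1) 0) [y]
  simpa using h2.symm

theorem pp_zero {P : A} {N m : ℕ} (hP : P ∈ LKV N m) (hm : 1 ≤ m) (x : R) :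
    pp P m x 0 = 0 := by
  obtain ⟨k, rfl⟩ : ∃ k, m = k + 1 := ⟨m - 1, by omega⟩
  have h := F_one hP hm x
  rw [List.replicate_succ] at h
  exact h

theorem pp_zero' {P : A} {N m : ℕ} (hP : P ∈ LKV N m) (hm : 1 ≤ m) (x : R) :
    pp P m 0 x = 0 := by
  rw [pp_swap hP hm x 0, pp_zero hP hm, mul_zero]

theorem pp_neg {P : A} {N m : ℕ} (hP : P ∈ LKV N m) (x y : R) :
    pp P m (-x) (-y) = (-1) ^ (N - m) * pp P m x y := by
  have h := F_neg hP (x :: y :: List.replicate (m - 1) 0)
  simpa [pp] using h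

theorem F_Z {P : A} {N m : ℕ} (hP : P ∈ LKV N m) (hm : 1 ≤ m) (x y w : R) :
    w ^ (m - 1) ∣ ∑ i ∈ Finset.range m, GP P (st (x :: List.replicate i w ++
      y :: List.replicate (m - 1 - i) 0)) := by
  have h := T_Z hP hm (pw x) (pw y) w
  have e : ∀ i, T P N (pw x :: List.replicate i (pw w) ++
      pw y :: List.replicate (m - 1 - i) (pw 0)) = GP P (st (x :: List.replicate i w ++
      y :: List.replicate (m - 1 - i) 0)) := by
    intro i
    have e1 : (x :: List.replicate i w ++ y :: List.replicate (m - 1 - i) 0).map pw =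
        pw x :: List.replicate i (pw w) ++ pw y :: List.replicate (m - 1 - i) (pw 0) := by
      simp
    rw [← e1, List.cons_append, T_GP hP]
  simp only [e] at h
  exact h

theorem dvd_sub {P : A} {N m : ℕ} (hP : P ∈ LKV N m) (hm : 2 ≤ m) (hN : m ≤ N) (b c : R) :
    (b - c) ^ (m - 1) ∣ pp P m b c := by
  obtain ⟨k, rfl⟩ : ∃ k, m = k + 2 := ⟨m - 2, by omega⟩
  have h1 := run1 hP hN (0 : R) 1 [] [b, c] k (by simp; omega)
  have h2 := F_trans hP.1 ((0 : R), (-1 : R)) (0, 1) (b, 0) [(c, 0)]
  have h3 := run2 hP hN b (-1) c (-1) [(0 : R)] [] [] k (by simp; omega)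
  have e2 : (((0 : R), (1 : R)) :: (b, 0) :: [(c, 0)]).map (fun e => ((0 : R), (-1 : R)) + e) =
      st [(0 : R)] ++ (b, -1) :: (st [] ++ (c, -1) :: st []) := by
    simp [st]
  have e1 : (((0 : R), (1 : R)) :: (b, 0) :: [(c, 0)]) = st [] ++ (0, 1) :: st [b, c] := by
    simp [st]
  rw [e2, e1, h1, h3, one_pow, one_mul, List.nil_append,
    F_swap hP (List.replicate (k + 1) 0) [b, c]] at h2
  have h4 : pp P (k + 2) b c = GP P (st ([b, c] ++ List.replicate (k + 1) 0)) := rfl
  rw [h4, ← h2]
  have h5 := F_Z hP (by omega) (-c) 0 (b - c)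
  rw [Finset.sum_range_succ'] at h5
  have h6 : GP P (st (-c :: List.replicate 0 (b - c) ++
      0 :: List.replicate (k + 2 - 1 - 0) 0)) = 0 := pp_zero hP (by omega) (-c)
  rw [h6, add_zero] at h5
  have h7 : ∀ g ∈ Finset.range (k + 1), (-1 : R) ^ g * (-1) ^ (k - g) *
      GP P (st ([0] ++ List.replicate (g + 1) b ++ [] ++ List.replicate (k - g + 1) c ++ [])) =
      (-1) ^ k * GP P (st (-c :: List.replicate (g + 1) (b - c) ++
        0 :: List.replicate (k + 2 - 1 - (g + 1)) 0)) := by
    intro g hg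
    rw [Finset.mem_range] at hg
    rw [← pow_add, show g + (k - g) = k by omega]
    congr 1
    rw [← F_shift hP.1 (-c) _ (by simp; omega)]
    congr 2
    simp only [List.map_append, List.map_cons, List.map_replicate, List.map_nil]
    rw [show k + 2 - 1 - (g + 1) = k - g by omega, ← List.replicate_succ]
    simp [sub_eq_neg_add]
  rw [Finset.sum_congr rfl h7, ← Finset.mul_sum]
  exact Dvd.dvd.mul_left h5 _

theorem path3 {P : A} (hP : P ∈ LieX) (x y : R) :
    GP P [(x, 0), (x + y, 1), (x, 2), (0, 1)] + (GP P [(x, 0), (x + y, 1), (y, 0), (0, 1)] +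
      GP P [(x, 0), (0, -1), (y, 0), (0, 1)]) = 0 := by
  have h := path_lie hP [((0 : R), (0 : R)), (-x, -1)] [(x, 0), (x + y, 1), (x, 2)]
  simp only [PS, paths, eps, G, List.map_cons, List.map_nil, List.cons_append, List.nil_append,
    List.sum_cons, List.sum_nil, Prod.mk_add_mk, zero_add, add_zero, mul_zero, zero_mul] at h
  rw [show -x + x = 0 by ring, show -x + (x + y) = y by ring, show (-1 : R) + 1 = 0 by ring,
    show (-1 : R) + 2 = 1 by norm_num] at h
  linear_combination h

theorem dvd_add {P : A} {N m : ℕ} (hP : P ∈ LKV N m) (hm : 2 ≤ m) (hN : m ≤ N) (x y : R) :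
    (x + y) ^ (m - 1) ∣ (2 ^ (m - 1) - 1) * pp P m x y + pp P m (-x) (-y) := by
  obtain ⟨k, rfl⟩ : ∃ k, m = k + 2 := ⟨m - 2, by omega⟩
  have h5 := F_Z hP (by omega) x y (x + y)
  rw [Finset.sum_range_succ', Finset.sum_range_succ] at h5
  -- the first and the last summands
  have e0 : GP P (st (x :: List.replicate 0 (x + y) ++
      y :: List.replicate (k + 2 - 1 - 0) 0)) = pp P (k + 2) x y := rfl
  have e1 : GP P (st (x :: List.replicate (k + 1) (x + y) ++
      y :: List.replicate (k + 2 - 1 - (k + 1)) 0)) = pp P (k + 2) (-x) (-y) := by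
    rw [← F_shift hP.1 (-(x + y)) _ (by simp)]
    unfold pp
    have h1 := F_swap hP (-y :: List.replicate (k + 1) 0) [-x]
    rw [show k + 2 - 1 = k + 1 by omega, Nat.sub_self]
    have e2 : (x :: List.replicate (k + 1) (x + y) ++ y :: List.replicate 0 0).map
        (fun z => -(x + y) + z) = -y :: List.replicate (k + 1) 0 ++ [-x] := by
      simp
    rw [e2, h1]
    rfl
  rw [e0, e1] at h5
  -- the middle summands
  have hmid : ∑ g ∈ Finset.range k, GP P (st (x :: List.replicate (g + 1) (x + y) ++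
      y :: List.replicate (k + 2 - 1 - (g + 1)) 0)) =
      (∑ g ∈ Finset.range k, (((k + 1).choose (g + 1) : ℕ) : R)) * pp P (k + 2) x y -
      (-1) ^ k * (∑ g ∈ Finset.range k, (((k + 1).choose (k - g) : ℕ) : R)) *
        pp P (k + 2) y (-x) := by
    rcases k with _ | k
    · simp
    have h3 := path3 hP.1 x y
    have r1 := run2 hP hN (x + y) 1 0 1 [x] [y] [] k (by simp; omega)
    have r2 := run2 hP hN (0 : R) (-1) 0 1 [x] [y] [] k (by simp; omega)
    have r3 := run2 hP hN (0 : R) (-1) 0 1 [] [y] [-x] k (by simp; omega)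
    have t3 := F_trans hP.1 (-x, -1) (x, 0) (x + y, 1) [(x, 2), (0, 1)]
    have c1 : st [x] ++ (x + y, (1 : R)) :: (st [y] ++ ((0 : R), (1 : R)) :: st []) =
        [(x, 0), (x + y, 1), (y, 0), (0, 1)] := by simp [st]
    have c2 : st [x] ++ ((0 : R), (-1 : R)) :: (st [y] ++ ((0 : R), (1 : R)) :: st []) =
        [(x, 0), (0, -1), (y, 0), (0, 1)] := by simp [st]
    have c3 : [(x, 0), (x + y, 1), (x, 2), ((0 : R), (1 : R))].map
        (fun e => (-x, (-1 : R)) + e) =
        st [] ++ ((0 : R), (-1 : R)) :: (st [y] ++ ((0 : R), (1 : R)) :: st [-x]) := by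
      simp only [st, List.map_cons, List.map_nil, Prod.mk_add_mk, List.nil_append,
        List.cons_append]
      rw [show -x + x = 0 by ring, show -x + (x + y) = y by ring, show (-1 : R) + 1 = 0 by ring,
        show (-1 : R) + 2 = 1 by norm_num]
      simp
    rw [c3, r3] at t3
    rw [c1] at r1
    rw [c2] at r2
    have s1 : ∑ g ∈ Finset.range (k + 1), GP P (st (x :: List.replicate (g + 1) (x + y) ++
        y :: List.replicate (k + 1 + 2 - 1 - (g + 1)) 0)) =
        GP P [(x, 0), (x + y, 1), (y, 0), (0, 1)] := by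
      rw [r1]
      refine Finset.sum_congr rfl fun g hg => ?_
      rw [Finset.mem_range] at hg
      rw [show k + 1 + 2 - 1 - (g + 1) = k - g + 1 by omega]
      simp
    have s2 : GP P [(x, 0), ((0 : R), -1), (y, 0), (0, 1)] = -
        (∑ g ∈ Finset.range (k + 1), (((k + 1 + 1).choose (g + 1) : ℕ) : R)) *
          pp P (k + 1 + 2) x y := by
      rw [r2, neg_mul, Finset.sum_mul, ← Finset.sum_neg_distrib]
      refine Finset.sum_congr rfl fun g hg => ?_
      rw [Finset.mem_range] at hg
      have h6 := F_two hP (by omega) x y (g + 1) (by omega)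
      rw [show k + 1 + 2 - 1 - (g + 1) = k - g + 1 by omega] at h6
      have e3 : [x] ++ List.replicate (g + 1) 0 ++ [y] ++ List.replicate (k - g + 1) 0 ++ [] =
          x :: List.replicate (g + 1) 0 ++ y :: List.replicate (k - g + 1) 0 := by simp
      rw [e3, h6]
      unfold pp
      rw [show k + 1 + 2 - 1 = k + 1 + 1 by omega]
      have h7 : ((-1 : R) ^ g) * (-1) ^ (g + 1) = -1 := by
        rw [pow_succ, ← mul_assoc, ← pow_add, Even.neg_one_pow ⟨g, rfl⟩]
        ring
      linear_combination (((k + 1 + 1).choose (g + 1) : ℕ) : R) *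
        GP P (st (x :: y :: List.replicate (k + 1 + 1) 0)) * h7
    have s3 : GP P [(x, 0), (x + y, 1), (x, 2), (0, 1)] =
        (-1) ^ (k + 1) * (∑ g ∈ Finset.range (k + 1), (((k + 1 + 1).choose (k + 1 - g) : ℕ) : R)) *
          pp P (k + 1 + 2) y (-x) := by
      rw [← t3, Finset.mul_sum, Finset.sum_mul]
      refine Finset.sum_congr rfl fun g hg => ?_
      rw [Finset.mem_range] at hg
      have h6 := F_two hP (by omega) y (-x) (k - g + 1) (by omega)
      rw [show k + 1 + 2 - 1 - (k - g + 1) = g + 1 by omega] at h6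
      have h8 := F_swap hP (List.replicate (g + 1) 0) (y :: List.replicate (k - g + 1) 0 ++ [-x])
      have e3 : [] ++ List.replicate (g + 1) 0 ++ [y] ++ List.replicate (k - g + 1) 0 ++ [-x] =
          List.replicate (g + 1) 0 ++ (y :: List.replicate (k - g + 1) 0 ++ [-x]) := by simp
      have e4 : y :: List.replicate (k - g + 1) 0 ++ [-x] ++ List.replicate (g + 1) 0 =
          y :: List.replicate (k - g + 1) 0 ++ -x :: List.replicate (g + 1) 0 := by simp
      rw [e3, h8, e4, h6]
      unfold pp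
      rw [show k + 1 + 2 - 1 = k + 1 + 1 by omega, show k - g + 1 = k + 1 - g by omega]
      have h7 : ((-1 : R) ^ g) * (-1) ^ (k + 1 - g) = (-1) ^ (k + 1) := by
        rw [← pow_add]
        congr 1
        omega
      rw [one_pow, mul_one, ← h7]
      ring
    rw [s1]
    rw [s2, s3] at h3
    linear_combination h3
  rw [hmid] at h5
  have hb : (∑ g ∈ Finset.range k, (((k + 1).choose (g + 1) : ℕ) : R)) = 2 ^ (k + 1) - 2 := by
    have h := Nat.sum_range_choose (k + 1)
    rw [Finset.sum_range_succ', Finset.sum_range_succ] at h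
    have h' := congrArg (Nat.cast (R := R)) h
    push_cast at h'
    simp at h'
    linear_combination h'
  rw [hb] at h5
  have h6 : (x + y) ^ (k + 2 - 1) ∣ pp P (k + 2) y (-x) := by
    have := dvd_sub hP hm hN y (-x)
    rwa [sub_neg_eq_add, add_comm] at this
  have h7 := _root_.dvd_add h5 (Dvd.dvd.mul_left h6 ((-1) ^ k *
    (∑ g ∈ Finset.range k, (((k + 1).choose (k - g) : ℕ) : R))))
  have e9 : (2 ^ (k + 2 - 1) - 1) * pp P (k + 2) x y + pp P (k + 2) (-x) (-y) =
      (2 ^ (k + 1) - 2) * pp P (k + 2) x y - (-1) ^ k *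
        (∑ g ∈ Finset.range k, (((k + 1).choose (k - g) : ℕ) : R)) * pp P (k + 2) y (-x) +
        pp P (k + 2) (-x) (-y) + pp P (k + 2) x y + (-1) ^ k *
        (∑ g ∈ Finset.range k, (((k + 1).choose (k - g) : ℕ) : R)) * pp P (k + 2) y (-x) := by
    rw [show k + 2 - 1 = k + 1 by omega]
    ring
  rw [e9]
  exact h7

end Pool.Agent.Helper71.DS
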