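import Mathlib

/-!
# A function of five rational letters
-/

set_option autoImplicit false

namespace Pool.Agent.Helper71.DS.Five

open Equiv

/-- antisymmetrization -/
noncomputable def Alt (g : (Fin 5 → ℚ) → ℚ) (z : Fin 5 → ℚ) : ℚ :=
  ∑ σ : Perm (Fin 5), ((Perm.sign σ : ℤ) : ℚ) * g (z ∘ σ)

theorem Alt_perm (g : (Fin 5 → ℚ) → ℚ) (τ : Perm (Fin 5)) (z : Fin 5 → ℚ) :
    Alt (fun w => g (w ∘ τ)) z = ((Perm.sign τ : ℤ) : ℚ) * Alt g z := by
  unfold Alt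
  rw [Finset.mul_sum]
  refine Fintype.sum_equiv (Equiv.mulRight τ) _ _ fun σ => ?_
  simp only [Equiv.coe_mulRight, Perm.sign_mul, Units.val_mul, Int.cast_mul]
  have h : ((Perm.sign τ : ℤ) : ℚ) * ((Perm.sign τ : ℤ) : ℚ) = 1 := by
    rw [← Int.cast_mul, ← Units.val_mul, Int.units_mul_self]
    simp
  have e : z ∘ ⇑(σ * τ) = (z ∘ ⇑σ) ∘ ⇑τ := rfl
  rw [e]
  linear_combination (-((Perm.sign σ : ℤ) : ℚ) * g ((z ∘ ⇑σ) ∘ ⇑τ)) * h

theorem Alt_add (g h : (Fin 5 → ℚ) → ℚ) (z : Fin 5 → ℚ) :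
    Alt (fun w => g w + h w) z = Alt g z + Alt h z := by
  unfold Alt
  rw [← Finset.sum_add_distrib]
  refine Finset.sum_congr rfl fun σ _ => ?_
  ring

theorem Alt_neg (g : (Fin 5 → ℚ) → ℚ) (z : Fin 5 → ℚ) :
    Alt (fun w => - g w) z = - Alt g z := by
  unfold Alt
  rw [← Finset.sum_neg_distrib]
  refine Finset.sum_congr rfl fun σ _ => ?_
  ring

theorem Alt_zero (z : Fin 5 → ℚ) : Alt (fun _ => 0) z = 0 := by
  unfold Alt
  simp

/-- `(b, a, e, c, d)` -/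
def t1 : Perm (Fin 5) := ⟨![1, 0, 4, 2, 3], ![1, 0, 3, 4, 2], by decide, by decide⟩
/-- `(b, a, c, d, e)` -/
def t2 : Perm (Fin 5) := ⟨![1, 0, 2, 3, 4], ![1, 0, 2, 3, 4], by decide, by decide⟩
/-- `(c, a, b, d, e)` -/
def t3 : Perm (Fin 5) := ⟨![2, 0, 1, 3, 4], ![1, 2, 0, 3, 4], by decide, by decide⟩
/-- `(e, b, c, d, a)` -/
def t4 : Perm (Fin 5) := ⟨![4, 1, 2, 3, 0], ![4, 1, 2, 3, 0], by decide, by decide⟩
/-- `(e, b, a, c, d)` -/
def t5 : Perm (Fin 5) := ⟨![4, 1, 0, 2, 3], ![2, 1, 3, 4, 0], by decide, by decide⟩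
/-- `(e, b, d, c, a)` -/
def t6 : Perm (Fin 5) := ⟨![4, 1, 3, 2, 0], ![4, 1, 3, 2, 0], by decide, by decide⟩

theorem s1 : Perm.sign t1 = -1 := by decide
theorem s2 : Perm.sign t2 = -1 := by decide
theorem s3 : Perm.sign t3 = 1 := by decide
theorem s4 : Perm.sign t4 = -1 := by decide
theorem s5 : Perm.sign t5 = -1 := by decide
theorem s6 : Perm.sign t6 = 1 := by decide

theorem five (f : ℚ → ℚ → ℚ → ℚ → ℚ → ℚ)
    (hC : ∀ a b c d e, f a b c d e = f b c d e a)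
    (hR : ∀ a b c d e, f e d c b a = f a b c d e)
    (hZ : ∀ x a b c d, f x a b c d + f x b c d a + f x c d a b + f x d a b c = 0)
    (hT : ∀ t a b c d e, f (a + t) (b + t) (c + t) (d + t) (e + t) = f a b c d e)
    (hN : ∀ a b c d e, f (-a) (-b) (-c) (-d) (-e) = - f a b c d e)
    (hU : ∀ p q r s u, f p (p + u) (q + u) (r + u) (s + u) + f p q (q + u) (r + u) (s + u) +
      f p q r (r + u) (s + u) + f p q r s (s + u) = 0) :
    ∀ a b c d e, f a b c d e = 0 := by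
  have c2 : ∀ a b c d e, f a b c d e = f c d e a b := fun a b c d e => by rw [hC, hC]
  have c3 : ∀ a b c d e, f a b c d e = f d e a b c := fun a b c d e => by rw [hC, hC, hC]
  have c4 : ∀ a b c d e, f a b c d e = f e a b c d := fun a b c d e => by rw [hC, hC, hC, hC]
  -- transposition of the first two letters
  have h12 : ∀ a b c d e, f b a c d e = - f a b c d e := by
    intro a b c d e
    have z1 := hZ a b c d e
    have z2 := hZ d a c b e
    have z3 := hZ b a c d e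
    -- canonical names
    have e1 : f a c d e b = f b a c d e := by rw [← hC b a c d e]
    have e2 : f a d e b c = f a c b e d := by rw [← hR a c b e d, c4 d e b c a]
    have e3 : f a e b c d = f a d c b e := by rw [← hR a d c b e, c4 e b c d a]
    have e4 : f d a c b e = f a c b e d := hC _ _ _ _ _
    have e5 : f d c b e a = f a d c b e := c4 _ _ _ _ _
    have e6 : f d b e a c = f a c d b e := c3 _ _ _ _ _
    have e7 : f d e a c b = f a c b d e := c2 _ _ _ _ _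
    have e8 : f b c d e a = f a b c d e := c4 _ _ _ _ _
    have e9 : f b d e a c = f a c b d e := c3 _ _ _ _ _
    have e10 : f b e a c d = f a c d b e := c2 _ _ _ _ _
    linarith
  have h23 : ∀ a b c d e, f a c b d e = - f a b c d e := by
    intro a b c d e
    rw [hC a c b d e, h12, ← hC a b c d e]
  have h34 : ∀ a b c d e, f a b d c e = - f a b c d e := by
    intro a b c d e
    rw [c2 a b d c e, h12, ← c2 a b c d e]
  have h45 : ∀ a b c d e, f a b c e d = - f a b c d e := by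
    intro a b c d e
    rw [c3 a b c e d, h12, ← c3 a b c d e]
  set F0 : (Fin 5 → ℚ) → ℚ := fun z => f (z 0) (z 1) (z 2) (z 3) (z 4) with hF0
  have hanti : ∀ (σ : Perm (Fin 5)) (z : Fin 5 → ℚ),
      F0 (z ∘ σ) = ((Perm.sign σ : ℤ) : ℚ) * F0 z := by
    intro σ
    have hm : σ ∈ Submonoid.closure (Set.range fun i : Fin 4 ↦ swap i.castSucc i.succ) := by
      rw [Perm.mclosure_swap_castSucc_succ]
      trivial
    induction hm using Submonoid.closure_induction with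
    | mem σ hσ =>
      obtain ⟨i, rfl⟩ := hσ
      intro z
      have hs : Perm.sign (swap i.castSucc i.succ) = -1 :=
        Perm.sign_swap (ne_of_lt (Fin.castSucc_lt_succ))
      simp only [hs, hF0, Function.comp]
      fin_cases i
      · exact (h12 _ _ _ _ _).trans (by simp [swap_apply_def])
      · exact (h23 _ _ _ _ _).trans (by simp [swap_apply_def])
      · exact (h34 _ _ _ _ _).trans (by simp [swap_apply_def])
      · exact (h45 _ _ _ _ _).trans (by simp [swap_apply_def])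
    | one => intro z; simp
    | mul σ τ _ _ h1 h2 =>
      intro z
      have e : z ∘ ⇑(σ * τ) = (z ∘ ⇑σ) ∘ ⇑τ := rfl
      rw [e, h2, h1, Perm.sign_mul]
      push_cast
      ring
  have hA0 : ∀ z, Alt F0 z = 120 * F0 z := by
    intro z
    unfold Alt
    have : ∀ σ ∈ (Finset.univ : Finset (Perm (Fin 5))),
        ((Perm.sign σ : ℤ) : ℚ) * F0 (z ∘ σ) = F0 z := by
      intro σ _
      rw [hanti, ← mul_assoc, ← Int.cast_mul, ← Units.val_mul, Int.units_mul_self]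
      simp
    rw [Finset.sum_congr rfl this, Finset.sum_const, Finset.card_univ, Fintype.card_perm,
      Fintype.card_fin, nsmul_eq_mul]
    norm_num [Nat.factorial]
  set g1 : (Fin 5 → ℚ) → ℚ := fun z => f (z 0) (z 0 - z 1 + z 2) (z 2) (z 3) (z 4) with hg1
  set g2 : (Fin 5 → ℚ) → ℚ :=
    fun z => f (z 0) (z 0 - z 1 + z 2) (z 0 - z 1 + z 3) (z 3) (z 4) with hg2
  set h3 : (Fin 5 → ℚ) → ℚ := fun z => f (z 1) (z 3) (z 2) (z 0) (z 4 - z 2 + z 0) with hh3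
  set k1 : (Fin 5 → ℚ) → ℚ :=
    fun z => f (z 1 + z 2 + z 3 - z 0 - z 4) (z 1 + z 2 - z 0) (z 1) (z 2) (z 3) with hk1
  -- the three relations
  have pa : ∀ b c d e x, f b c d e x = - f b x e c d := by
    intro b c d e x
    have k1 := h45 b c d x e
    have k2 := h34 b c x d e
    have k3 := h23 b x c d e
    have k4 := h45 b x c e d
    have k5 := h34 b x e c d
    linarith
  have r1 : ∀ z, F0 z + (g1 z + (g2 z + - g1 (z ∘ t1))) = 0 := by
    intro z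
    have h := hU (z 0) (z 0 - z 1 + z 2) (z 0 - z 1 + z 3) (z 0 - z 1 + z 4) (z 1 - z 0)
    rw [show z 0 + (z 1 - z 0) = z 1 by ring, show z 0 - z 1 + z 2 + (z 1 - z 0) = z 2 by ring,
      show z 0 - z 1 + z 3 + (z 1 - z 0) = z 3 by ring,
      show z 0 - z 1 + z 4 + (z 1 - z 0) = z 4 by ring] at h
    have e4 : f (z 0) (z 0 - z 1 + z 2) (z 0 - z 1 + z 3) (z 0 - z 1 + z 4) (z 4) =
        - f (z 1) (z 1 - z 0 + z 4) (z 4) (z 2) (z 3) := by
      rw [← pa, ← hT (z 1 - z 0)]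
      congr 1 <;> ring
    have g1e : g1 (z ∘ t1) = f (z 1) (z 1 - z 0 + z 4) (z 4) (z 2) (z 3) := rfl
    have g1f : g1 z = f (z 0) (z 0 - z 1 + z 2) (z 2) (z 3) (z 4) := rfl
    have g2f : g2 z = f (z 0) (z 0 - z 1 + z 2) (z 0 - z 1 + z 3) (z 3) (z 4) := rfl
    have F0f : F0 z = f (z 0) (z 1) (z 2) (z 3) (z 4) := rfl
    rw [g1e, g1f, g2f, F0f]
    linarith
  have r2 : ∀ z, g1 (z ∘ t2) + (- g2 (z ∘ t3) + (h3 z + h3 (z ∘ t4))) = 0 := by
    intro z
    have h := hU (z 1 - z 0 + z 2) (z 2 - z 0 + z 3) (2 * z 2 - z 0) (z 2 + z 4 - z 0) (z 0 - z 2)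
    rw [show z 1 - z 0 + z 2 + (z 0 - z 2) = z 1 by ring,
      show z 2 - z 0 + z 3 + (z 0 - z 2) = z 3 by ring,
      show 2 * z 2 - z 0 + (z 0 - z 2) = z 2 by ring,
      show z 2 + z 4 - z 0 + (z 0 - z 2) = z 4 by ring] at h
    have e1 : f (z 1 - z 0 + z 2) (z 1) (z 3) (z 2) (z 4) =
        f (z 1) (z 1 - z 0 + z 2) (z 2) (z 3) (z 4) := by
      rw [h12, h34, neg_neg]
    have e2 : f (z 1 - z 0 + z 2) (z 2 - z 0 + z 3) (z 3) (z 2) (z 4) =
        - f (z 2) (z 2 - z 0 + z 1) (z 2 - z 0 + z 3) (z 3) (z 4) := by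
      rw [show z 2 - z 0 + z 1 = z 1 - z 0 + z 2 by ring]
      have k1 := h34 (z 1 - z 0 + z 2) (z 2 - z 0 + z 3) (z 2) (z 3) (z 4)
      have k2 := h23 (z 1 - z 0 + z 2) (z 2) (z 2 - z 0 + z 3) (z 3) (z 4)
      have k3 := h12 (z 2) (z 1 - z 0 + z 2) (z 2 - z 0 + z 3) (z 3) (z 4)
      linarith
    have e3 : f (z 1 - z 0 + z 2) (z 2 - z 0 + z 3) (2 * z 2 - z 0) (z 2) (z 4) =
        f (z 1) (z 3) (z 2) (z 0) (z 4 - z 2 + z 0) := by
      rw [← hT (z 0 - z 2)]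
      congr 1 <;> ring
    have e4 : f (z 1 - z 0 + z 2) (z 2 - z 0 + z 3) (2 * z 2 - z 0) (z 2 + z 4 - z 0) (z 4) =
        f (z 1) (z 3) (z 2) (z 4) (z 0 - z 2 + z 4) := by
      rw [← hT (z 0 - z 2)]
      congr 1 <;> ring
    have g1e : g1 (z ∘ t2) = f (z 1) (z 1 - z 0 + z 2) (z 2) (z 3) (z 4) := rfl
    have g2e : g2 (z ∘ t3) = f (z 2) (z 2 - z 0 + z 1) (z 2 - z 0 + z 3) (z 3) (z 4) := rfl
    have h3e : h3 z = f (z 1) (z 3) (z 2) (z 0) (z 4 - z 2 + z 0) := rfl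
    have h3f : h3 (z ∘ t4) = f (z 1) (z 3) (z 2) (z 4) (z 0 - z 2 + z 4) := rfl
    rw [g1e, g2e, h3e, h3f]
    linarith
  have r3 : ∀ z, k1 z + (- k1 (z ∘ t6) + (g2 (z ∘ t5) + - g1 (z ∘ t2))) = 0 := by
    intro z
    have h := hU (z 1 - z 0 + z 2) (z 1) (z 2) (z 3) (z 4 - z 3)
    rw [show z 3 + (z 4 - z 3) = z 4 by ring] at h
    have e1 : f (z 1 - z 0 + z 2) (z 1 - z 0 + z 2 + (z 4 - z 3)) (z 1 + (z 4 - z 3))
        (z 2 + (z 4 - z 3)) (z 4) =
        f (z 1 + z 2 + z 3 - z 0 - z 4) (z 1 + z 2 - z 0) (z 1) (z 2) (z 3) := by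
      rw [← hT (z 3 - z 4)]
      congr 1 <;> ring
    have e2 : f (z 1 - z 0 + z 2) (z 1) (z 1 + (z 4 - z 3)) (z 2 + (z 4 - z 3)) (z 4) =
        - f (z 1 + z 3 + z 2 - z 4 - z 0) (z 1 + z 3 - z 4) (z 1) (z 3) (z 2) := by
      rw [← h45, ← hT (z 3 - z 4)]
      congr 1 <;> ring
    have e3 : f (z 1 - z 0 + z 2) (z 1) (z 2) (z 2 + (z 4 - z 3)) (z 4) =
        f (z 4) (z 4 - z 1 + z 0) (z 4 - z 1 + z 2) (z 2) (z 3) := by
      have k0 := hN (z 1 - z 0 + z 2) (z 1) (z 2) (z 2 + (z 4 - z 3)) (z 4)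
      have k1 : f (-(z 1 - z 0 + z 2)) (-z 1) (-z 2) (-(z 2 + (z 4 - z 3))) (-z 4) =
          f (z 0) (z 2) (z 1) (z 1 + z 3 - z 4) (z 1 + z 2 - z 4) := by
        rw [← hT (z 1 + z 2)]
        congr 1 <;> ring
      have k2 : f (z 4) (z 4 - z 1 + z 0) (z 4 - z 1 + z 2) (z 2) (z 3) =
          f (z 1) (z 0) (z 2) (z 1 + z 2 - z 4) (z 1 + z 3 - z 4) := by
        rw [← hT (z 1 - z 4)]
        congr 1 <;> ring
      have k3 := h45 (z 0) (z 2) (z 1) (z 1 + z 2 - z 4) (z 1 + z 3 - z 4)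
      have k4 := h23 (z 0) (z 1) (z 2) (z 1 + z 2 - z 4) (z 1 + z 3 - z 4)
      have k5 := h12 (z 1) (z 0) (z 2) (z 1 + z 2 - z 4) (z 1 + z 3 - z 4)
      linarith
    have e4 : f (z 1 - z 0 + z 2) (z 1) (z 2) (z 3) (z 4) =
        - f (z 1) (z 1 - z 0 + z 2) (z 2) (z 3) (z 4) := h12 _ _ _ _ _
    have k1e : k1 z = f (z 1 + z 2 + z 3 - z 0 - z 4) (z 1 + z 2 - z 0) (z 1) (z 2) (z 3) := rfl
    have k1f : k1 (z ∘ t6) =
      f (z 1 + z 3 + z 2 - z 4 - z 0) (z 1 + z 3 - z 4) (z 1) (z 3) (z 2) := rfl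
    have g2e : g2 (z ∘ t5) = f (z 4) (z 4 - z 1 + z 0) (z 4 - z 1 + z 2) (z 2) (z 3) := rfl
    have g1e : g1 (z ∘ t2) = f (z 1) (z 1 - z 0 + z 2) (z 2) (z 3) (z 4) := rfl
    rw [k1e, k1f, g2e, g1e]
    linarith
  have a1 : ∀ z, Alt F0 z + 2 * Alt g1 z + Alt g2 z = 0 := by
    intro z
    have h := Alt_zero z
    rw [← funext r1] at h
    rw [Alt_add, Alt_add, Alt_add, Alt_neg, Alt_perm, s1] at h
    push_cast at h
    linarith
  have a2 : ∀ z, Alt g1 z + Alt g2 z = 0 := by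
    intro z
    have h := Alt_zero z
    rw [← funext r2] at h
    rw [Alt_add, Alt_add, Alt_add, Alt_neg, Alt_perm, Alt_perm, Alt_perm, s2, s3, s4] at h
    push_cast at h
    linarith
  have a3 : ∀ z, Alt g1 z - Alt g2 z = 0 := by
    intro z
    have h := Alt_zero z
    rw [← funext r3] at h
    rw [Alt_add, Alt_add, Alt_add, Alt_neg, Alt_neg, Alt_perm, Alt_perm, Alt_perm, s2, s5, s6] at h
    push_cast at h
    linarith
  intro a b c d e
  have h := hA0 ![a, b, c, d, e]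
  have h1 := a1 ![a, b, c, d, e]
  have h2 := a2 ![a, b, c, d, e]
  have h3 := a3 ![a, b, c, d, e]
  have h4 : F0 ![a, b, c, d, e] = 0 := by linarith
  exact h4

end Pool.Agent.Helper71.DS.Five
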