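import Pool.Agent.Helper71.DS.Sum
import Pool.Agent.Helper71.DS.Five
import Pool.Graph.R_pool_sql_team_seeded_2aa45f1a.Results.MP_ec2393_nt.LowestLetterPart

/-!
# The function of the letters of an element of `LKV N m`
-/

set_option autoImplicit false
set_option linter.unusedSectionVars false

namespace Pool.Agent.Helper71.DS

open Pool.Agent.H777R4.DM Pool.Agent.H352.DSH
open Pool.Agent.Q299.LK (zz zz_append zz_cons)
open Pool.Agent.Results.MP_ec2393_nt.LowestLetterPart

variable {R : Type} [CommRing R] [Algebra ℚ R]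

theorem W_rot {P : A} (hpush : ∀ u v, co P (u ++ 0 :: v) = co P (v ++ 0 :: u)) (l : List ℕ)
    (hl : 2 ≤ l.length) : co P (W (l.rotate 1)) = co P (W l) := by
  rcases l with _ | ⟨a, _ | ⟨b, l⟩⟩
  · simp at hl
  · simp at hl
  · have e1 : (a :: b :: l).rotate 1 = b :: l ++ [a] := by simp
    have e2 : a :: b :: l = [a] ++ b :: l := rfl
    rw [e1, W_append, e2, W_append a [] l b]
    exact hpush _ _

theorem len_le {P : A} {N m : ℕ} (hP : P ∈ LKV N m) (u : List (Fin 2)) (h : co P u ≠ 0) :
    u.length ≤ N := (hP.2.1 u h).1.le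

theorem F_rot {P : A} {N m : ℕ} (hP : P ∈ LKV N m) (z : R) (zs : List R) :
    GP P (st (zs ++ [z])) = GP P (st (z :: zs)) := by
  rcases zs with _ | ⟨w, zs⟩
  · rfl
  · rw [List.cons_append, GP_Sm (len_le hP), GP_Sm (len_le hP), ← List.cons_append,
      List.map_append, List.map_cons (l := []), List.map_nil, Sm_cyc, ← List.map_cons]
    refine Sm_congr _ _ _ _ fun l hl => ?_
    rw [W_rot hP.2.2.1 l (by rw [hl]; simp)]

theorem F_circ {P : A} {N m : ℕ} (hP : P ∈ LKV N m) (z : R) (zs : List R) (h0 : zs ≠ []) :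
    ∑ i ∈ Finset.range zs.length, GP P (st (z :: zs.rotate i)) = 0 := by
  have h1 : ∀ i ∈ Finset.range zs.length, GP P (st (z :: zs.rotate i)) =
      ∑ k ∈ Finset.range (N + 1), pw z k * Sm N (zs.map pw)
        (fun l => algebraMap ℚ R (co P (W (k :: l.rotate i)))) := by
    intro i _
    rw [GP_Sm (len_le hP), List.map_cons, Sm]
    refine Finset.sum_congr rfl fun k _ => ?_
    rw [List.map_rotate, Sm_rotate]
  rw [Finset.sum_congr rfl h1, Finset.sum_comm]
  refine Finset.sum_eq_zero fun k _ => ?_
  rw [← Finset.mul_sum, ← Sm_sum]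
  have h2 : Sm N (zs.map pw) (fun l => ∑ i ∈ Finset.range zs.length,
      algebraMap ℚ R (co P (W (k :: l.rotate i)))) = Sm N (zs.map pw) (fun _ => (0 : R)) := by
    refine Sm_congr _ _ _ _ fun l hl => ?_
    rw [List.length_map] at hl
    rw [← map_sum, ← hl]
    have h3 := hP.2.2.2 k l (by rintro rfl; apply h0; simpa using hl.symm)
    rw [show (∑ i ∈ Finset.range l.length, co P (W (k :: l.rotate i))) = 0 from h3, map_zero]
  rw [h2, Sm_zero, mul_zero]

theorem GP_apply (P : A) (s : List (R × R)) : GP P s = ∑ k ∈ P.coeff.support,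
      algebraMap ℚ R (co P (FreeMonoid.toList k)) * G (FreeMonoid.toList k) s := by
  unfold GP
  rw [Pool.Agent.H777R4.DM.lext_apply, Finsupp.sum]
  refine Finset.sum_congr rfl fun m _ => ?_
  rw [Algebra.smul_def]
  rfl

theorem F_rev {P : A} {N m : ℕ} (hP : P ∈ LKV N m) (zs : List R) :
    GP P (st zs.reverse) = (-1) ^ (N + 1) * GP P (st zs) := by
  rcases zs with _ | ⟨z, zs⟩
  · simp [GP_apply, st, G_nil]
  · obtain ⟨w, ws, hw⟩ : ∃ w ws, (z :: zs).reverse = w :: ws := by
      rcases h' : (z :: zs).reverse with _ | ⟨e, l'⟩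
      · simp at h'
      · exact ⟨e, l', rfl⟩
    rw [hw, GP_Sm (len_le hP), GP_Sm (len_le hP), ← hw, List.map_reverse, Sm_reverse, ← Sm_mul]
    refine Sm_congr _ _ _ _ fun l hl => ?_
    rcases l with _ | ⟨a, l⟩
    · simp at hl
    · rw [W_reverse]
      have h := taskTwoB P hP.1 (W (a :: l))
      rw [h]
      by_cases h0 : co P (W (a :: l)) = 0
      · rw [h0]; simp
      · rw [(hP.2.1 _ h0).1, map_mul, map_pow, map_neg, map_one]

theorem G_neg (u : List (Fin 2)) : ∀ (zs : List R),
    G u (st (zs.map fun z => -z)) = (-1) ^ (u.count 1) * G u (st zs) := by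
  induction u with
  | nil =>
    intro zs
    rcases zs with _ | ⟨a, _ | ⟨b, zs⟩⟩ <;> simp [st, G]
  | cons i u ih =>
    intro zs
    rcases zs with _ | ⟨a, zs⟩
    · simp [st, G_nil]
    · have h1 := ih (a :: zs)
      have h2 := ih zs
      simp only [st, List.map_cons] at h1 h2 ⊢
      rw [G_cons, G_cons]
      have hi : i = 0 ∨ i = 1 := by omega
      rcases hi with rfl | rfl
      · rw [if_neg (by decide), if_neg (by decide), h1, h2, List.count_cons_of_ne (by decide)]
        ring
      · rw [if_pos rfl, if_pos rfl, h1, List.count_cons_self]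
        ring

theorem F_neg {P : A} {N m : ℕ} (hP : P ∈ LKV N m) (zs : List R) :
    GP P (st (zs.map fun z => -z)) = (-1) ^ (N - m) * GP P (st zs) := by
  rw [GP_apply, GP_apply, Finset.mul_sum]
  refine Finset.sum_congr rfl fun k hk => ?_
  rw [G_neg]
  have h0 : co P (FreeMonoid.toList k) ≠ 0 := by simpa [co] using hk
  obtain ⟨h1, h2⟩ := hP.2.1 _ h0
  have h3 := Pool.Agent.TH19.DS.count_len (FreeMonoid.toList k)
  have h4 : (FreeMonoid.toList k).count 1 = N - m := by omega
  rw [h4]
  ring

theorem PS_single (f : List (R × R) → R) (a b : R × R) (r : List (R × R)) :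
    PS f [a] (b :: r) = f ((b :: r).map fun c => a + c) := by
  induction r generalizing f b with
  | nil => simp [PS, paths]
  | cons c r ih =>
    rw [PS_cons _ _ _ _ _ (by simp), PS_nil, zero_add, ih]
    rfl

theorem F_trans {P : A} (hP : P ∈ LieX) (a b c : R × R) (r : List (R × R)) :
    GP P ((b :: c :: r).map fun e => a + e) = GP P (b :: c :: r) := by
  rw [← PS_single (GP P) a b (c :: r), path_lie hP]
  simp [eps, G]

theorem F_prism {P : A} (hP : P ∈ LieX) (p q r s u : R) :
    GP P (st [p, p + u, q + u, r + u, s + u]) + GP P (st [p, q, q + u, r + u, s + u]) +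
      GP P (st [p, q, r, r + u, s + u]) + GP P (st [p, q, r, s, s + u]) = 0 := by
  have h := path_lie hP [((0 : R), (0 : R)), (u, 0)] (st [p, q, r, s])
  simp only [PS, paths, st, eps, G, List.map_cons, List.map_nil, List.cons_append,
    List.nil_append, List.sum_cons, List.sum_nil, Prod.mk_add_mk, zero_add, add_zero,
    mul_zero, zero_mul] at h
  simp only [st, List.map_cons, List.map_nil]
  rw [add_comm p u, add_comm q u, add_comm r u, add_comm s u]
  linear_combination h

theorem poly_zero (d : ℕ) (s : ℕ → ℚ) (h : ∀ z : ℚ, ∑ k ∈ Finset.range (d + 1), z ^ k * s k = 0)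
    (k : ℕ) (hk : k ≤ d) : s k = 0 := by
  have h1 : (∑ k ∈ Finset.range (d + 1), Polynomial.C (s k) * Polynomial.X ^ k) = 0 := by
    apply Polynomial.funext
    intro z
    rw [Polynomial.eval_finsetSum, Polynomial.eval_zero, ← h z]
    refine Finset.sum_congr rfl fun k _ => ?_
    rw [Polynomial.eval_mul, Polynomial.eval_C, Polynomial.eval_pow, Polynomial.eval_X]
    ring
  have h2 := congrArg (fun p => Polynomial.coeff p k) h1
  simp only [Polynomial.finsetSum_coeff, Polynomial.coeff_C_mul_X_pow, Polynomial.coeff_zero] at h2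
  rw [Finset.sum_ite_eq, if_pos (Finset.mem_range.2 (by omega))] at h2
  exact h2

theorem coef (d n : ℕ) : ∀ (c : List ℕ → ℚ),
    (∀ zs : List ℚ, zs.length = n → Sm d (zs.map pw) c = 0) →
    ∀ l : List ℕ, l.length = n → (∀ x ∈ l, x ≤ d) → c l = 0 := by
  induction n with
  | zero =>
    intro c h l hl _
    rw [List.length_eq_zero_iff] at hl
    subst hl
    exact h [] rfl
  | succ n ih =>
    intro c h l hl hx
    rcases l with _ | ⟨k, l⟩
    · simp at hl
    · refine ih (fun l => c (k :: l)) (fun zs hzs => ?_) l (by simpa using hl)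
        fun x hx' => hx x (List.mem_cons_of_mem _ hx')
      refine poly_zero d (fun k => Sm d (zs.map pw) (fun l => c (k :: l))) (fun z => ?_) k
        (hx k (List.mem_cons_self))
      have := h (z :: zs) (by simp [hzs])
      simpa [Sm, pw] using this

theorem zero_of {P : A} {N m : ℕ} (hP : P ∈ LKV N m)
    (h : ∀ (z : ℚ) (zs : List ℚ), zs.length = m → GP P (st (z :: zs)) = 0) : P = 0 := by
  refine Pool.Agent.Q299.LK.co_ext fun u => ?_
  rw [co_zero]
  by_contra h0
  obtain ⟨h1, h2⟩ := hP.2.1 u h0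
  obtain ⟨a, l, hu, hl⟩ := W_surj u
  apply h0
  rw [hu]
  refine coef N (m + 1) (fun l => co P (W l)) (fun zs hzs => ?_) (a :: l) (by simp [hl, h2]) ?_
  · rcases zs with _ | ⟨z, zs⟩
    · simp at hzs
    · have h3 := h z zs (by simpa using hzs)
      rw [GP_Sm (len_le hP)] at h3
      exact h3
  · intro x hx
    have h3 : u.count 1 = a + l.sum := by
      rw [hu, W, List.count_append, zz_count1, List.count_replicate_self]
    have h4 := Pool.Agent.TH19.DS.count_len u
    have h5 : x ≤ (a :: l).sum := List.le_sum_of_mem hx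
    rw [List.sum_cons] at h5
    omega

theorem parity4 {P : A} {N : ℕ} (hP : P ∈ LKV N 4) (hN : Odd N) : P = 0 := by
  by_cases h4 : N < 4
  · refine Pool.Agent.Q299.LK.co_ext fun u => ?_
    rw [co_zero]
    by_contra h0
    obtain ⟨h1, h2⟩ := hP.2.1 u h0
    have := List.count_le_length (a := 0) (l := u)
    omega
  push Not at h4
  have hN1 : Even (N + 1) := hN.add_one
  have hN2 : Odd (N - 4) := by
    obtain ⟨k, hk⟩ := hN
    exact ⟨k - 2, by omega⟩
  have key := Five.five (fun a b c d e => GP P (st [a, b, c, d, e]))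
    (fun a b c d e => (F_rot hP a [b, c, d, e]).symm)
    (fun a b c d e => by
      have h := F_rev hP [a, b, c, d, e]
      rw [hN1.neg_one_pow, one_mul] at h
      exact h)
    (fun x a b c d => by
      have h := F_circ hP x [a, b, c, d] (by simp)
      simp only [List.length_cons, List.length_nil, Finset.sum_range_succ, Finset.sum_range_zero]
        at h
      simpa [List.rotate] using h)
    (fun t a b c d e => by
      have h := F_trans hP.1 (t, 0) (a, 0) (b, 0) [(c, 0), (d, 0), (e, 0)]
      simp only [List.map_cons, List.map_nil, Prod.mk_add_mk, add_zero] at h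
      simp only [st, List.map_cons, List.map_nil]
      rw [← h]
      simp only [add_comm])
    (fun a b c d e => by
      have h := F_neg hP [a, b, c, d, e]
      rw [hN2.neg_one_pow] at h
      simpa using h)
    (fun p q r s u => F_prism hP.1 p q r s u)
  refine zero_of hP fun z zs hzs => ?_
  obtain ⟨b, c, d, e, rfl⟩ : ∃ b c d e, zs = [b, c, d, e] := by
    rcases zs with _ | ⟨b, _ | ⟨c, _ | ⟨d, _ | ⟨e, _ | ⟨g, zs⟩⟩⟩⟩⟩ <;> simp at hzs
    exact ⟨b, c, d, e, rfl⟩
  exact key z b c d e

end Pool.Agent.Helper71.DS
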