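import Pool.Agent.Helper71.DS.Par

/-!
# Insertion of a letter
-/

set_option autoImplicit false
set_option linter.unusedSectionVars false

namespace Pool.Agent.Helper71.DS

open Pool.Agent.H777R4.DM

variable {R : Type} [CommRing R] [Algebra ℚ R]

/-- insertion of `k` after each entry -/
def cIns (k : ℕ) : List ℕ → (List ℕ → R) → R
  | [], _ => 0
  | b :: a, c => c (b :: k :: a) + cIns k a (fun t => c (b :: t))

theorem cIns_eq (k : ℕ) (a : List ℕ) : ∀ c : List ℕ → R,
    cIns k a c = ∑ r ∈ Finset.range a.length, c (a.take (r + 1) ++ k :: a.drop (r + 1)) := by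
  induction a with
  | nil => intro c; simp [cIns]
  | cons b a ih =>
    intro c
    rw [cIns, ih, List.length_cons, Finset.sum_range_succ']
    simp only [List.take_succ_cons, List.drop_succ_cons, List.cons_append, List.take_zero,
      List.drop_zero, List.nil_append]
    rw [add_comm]

/-- insertion of the letter `z` after each letter -/
def iS (d : ℕ) (z : ℕ → R) : List (ℕ → R) → (List ℕ → R) → R
  | [], _ => 0
  | φ :: φs, c => Sm d (φ :: z :: φs) c +
      ∑ k ∈ Finset.range (d + 1), φ k * iS d z φs (fun l => c (k :: l))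

theorem Sm_add (d : ℕ) (φs : List (ℕ → R)) : ∀ (c c' : List ℕ → R),
    Sm d φs (fun l => c l + c' l) = Sm d φs c + Sm d φs c' := by
  induction φs with
  | nil => intro c c'; rfl
  | cons φ φs ih =>
    intro c c'
    simp only [Sm]
    rw [← Finset.sum_add_distrib]
    refine Finset.sum_congr rfl fun k _ => ?_
    rw [ih]
    ring

theorem iS_eq (d : ℕ) (z : ℕ → R) (φs : List (ℕ → R)) : ∀ c : List ℕ → R,
    iS d z φs c = Sm d φs (fun a => ∑ k ∈ Finset.range (d + 1), z k * cIns k a c) := by
  induction φs with
  | nil => intro c; simp [iS, Sm, cIns]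
  | cons φ φs ih =>
    intro c
    rw [iS]
    simp only [Sm, cIns, mul_add, Finset.sum_add_distrib]
    simp only [Sm_add]
    simp only [mul_add, Finset.sum_add_distrib]
    congr 1
    · refine Finset.sum_congr rfl fun k _ => ?_
      rw [Sm_sum]
      congr 1
      refine Finset.sum_congr rfl fun j _ => ?_
      rw [Sm_mul]
    · refine Finset.sum_congr rfl fun k _ => ?_
      rw [ih]

theorem Sm_append (d : ℕ) (φs ψs : List (ℕ → R)) : ∀ c : List ℕ → R,
    Sm d (φs ++ ψs) c = Sm d φs (fun l => Sm d ψs (fun l' => c (l ++ l'))) := by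
  induction φs with
  | nil => intro c; rfl
  | cons φ φs ih =>
    intro c
    simp only [List.cons_append, Sm]
    refine Finset.sum_congr rfl fun k _ => ?_
    rw [ih]

theorem iS_append (d : ℕ) (z : ℕ → R) (φs ψs : List (ℕ → R)) : ∀ c : List ℕ → R,
    iS d z (φs ++ ψs) c = iS d z φs (fun l => Sm d ψs (fun l' => c (l ++ l'))) +
      Sm d φs (fun l => iS d z ψs (fun l' => c (l ++ l'))) := by
  induction φs with
  | nil => intro c; simp [iS, Sm]
  | cons φ φs ih =>
    intro c
    simp only [List.cons_append, iS]
    have e : Sm d (φ :: z :: (φs ++ ψs)) c =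
        Sm d (φ :: z :: φs) (fun l => Sm d ψs (fun l' => c (l ++ l'))) :=
      Sm_append d (φ :: z :: φs) ψs c
    rw [e, add_assoc]
    congr 1
    simp only [Sm]
    rw [← Finset.sum_add_distrib]
    refine Finset.sum_congr rfl fun k _ => ?_
    rw [ih, mul_add]
    rfl

theorem iS_replicate (d : ℕ) (z φ : ℕ → R) (i : ℕ) : ∀ c : List ℕ → R,
    iS d z (List.replicate i φ) c = ∑ j ∈ Finset.range i,
      Sm d (List.replicate (j + 1) φ ++ z :: List.replicate (i - 1 - j) φ) c := by
  induction i with
  | zero => intro c; simp [iS]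
  | succ i ih =>
    intro c
    rw [List.replicate_succ, iS]
    have e : ∀ k ∈ Finset.range (d + 1), φ k * iS d z (List.replicate i φ) (fun l => c (k :: l)) =
        ∑ j ∈ Finset.range i, φ k * Sm d (List.replicate (j + 1) φ ++
          z :: List.replicate (i - 1 - j) φ) (fun l => c (k :: l)) := by
      intro k _
      rw [ih, Finset.mul_sum]
    rw [Finset.sum_congr rfl e, Finset.sum_comm,
      Finset.sum_range_succ' (fun j => Sm d (List.replicate (j + 1) φ ++
        z :: List.replicate (i + 1 - 1 - j) φ) c) i, add_comm]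
    congr 1
    refine Finset.sum_congr rfl fun j hj => ?_
    rw [List.replicate_succ (n := j + 1), List.cons_append, Sm]
    have : i + 1 - 1 - (j + 1) = i - 1 - j := by omega
    rw [this]

theorem iS_cr (d : ℕ) (z a φ : ℕ → R) (i : ℕ) (c : List ℕ → R) :
    iS d z (a :: List.replicate i φ) c = ∑ j ∈ Finset.range (i + 1),
      Sm d (a :: List.replicate j φ ++ z :: List.replicate (i - j) φ) c := by
  rw [iS, Finset.sum_range_succ' (fun j => Sm d (a :: List.replicate j φ ++
    z :: List.replicate (i - j) φ) c) i, add_comm]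
  simp only [iS_replicate, Finset.mul_sum]
  rw [Finset.sum_comm]
  congr 1
  refine Finset.sum_congr rfl fun j _ => ?_
  have : i - 1 - j = i - (j + 1) := by omega
  rw [this, List.cons_append, Sm]

/-- the derivative of `Sm` -/
def dS (D : R → R) (d : ℕ) : List (ℕ → R) → (List ℕ → R) → R
  | [], _ => 0
  | φ :: φs, c => Sm d ((fun k => D (φ k)) :: φs) c +
      ∑ k ∈ Finset.range (d + 1), φ k * dS D d φs (fun l => c (k :: l))

theorem D_Sm (D : R →+ R) (hD : ∀ a b, D (a * b) = D a * b + a * D b) (d : ℕ)
    (φs : List (ℕ → R)) : ∀ (c : List ℕ → R), (∀ l, D (c l) = 0) →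
    D (Sm d φs c) = dS D d φs c := by
  induction φs with
  | nil => intro c hc; exact hc []
  | cons φ φs ih =>
    intro c hc
    simp only [Sm, dS]
    rw [map_sum, ← Finset.sum_add_distrib]
    refine Finset.sum_congr rfl fun k _ => ?_
    rw [hD, ih _ fun l => hc (k :: l)]

theorem dS_append (D : R → R) (d : ℕ) (φs ψs : List (ℕ → R)) : ∀ c : List ℕ → R,
    dS D d (φs ++ ψs) c = dS D d φs (fun l => Sm d ψs (fun l' => c (l ++ l'))) +
      Sm d φs (fun l => dS D d ψs (fun l' => c (l ++ l'))) := by
  induction φs with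
  | nil => intro c; simp [dS, Sm]
  | cons φ φs ih =>
    intro c
    simp only [List.cons_append, dS]
    have e : Sm d ((fun k => D (φ k)) :: (φs ++ ψs)) c =
        Sm d ((fun k => D (φ k)) :: φs) (fun l => Sm d ψs (fun l' => c (l ++ l'))) :=
      Sm_append d ((fun k => D (φ k)) :: φs) ψs c
    rw [e, add_assoc]
    congr 1
    simp only [Sm]
    rw [← Finset.sum_add_distrib]
    refine Finset.sum_congr rfl fun k _ => ?_
    rw [ih, mul_add]
    rfl

theorem dS_replicate (D : R → R) (d : ℕ) (φ : ℕ → R) (i : ℕ) : ∀ c : List ℕ → R,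
    dS D d (List.replicate i φ) c = ∑ j ∈ Finset.range i,
      Sm d (List.replicate j φ ++ (fun k => D (φ k)) :: List.replicate (i - 1 - j) φ) c := by
  induction i with
  | zero => intro c; simp [dS]
  | succ i ih =>
    intro c
    rw [List.replicate_succ, dS]
    have e : ∀ k ∈ Finset.range (d + 1), φ k * dS D d (List.replicate i φ) (fun l => c (k :: l)) =
        ∑ j ∈ Finset.range i, φ k * Sm d (List.replicate j φ ++
          (fun k => D (φ k)) :: List.replicate (i - 1 - j) φ) (fun l => c (k :: l)) := by
      intro k _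
      rw [ih, Finset.mul_sum]
    rw [Finset.sum_congr rfl e, Finset.sum_comm,
      Finset.sum_range_succ' (fun j => Sm d (List.replicate j φ ++
        (fun k => D (φ k)) :: List.replicate (i + 1 - 1 - j) φ) c) i, add_comm]
    congr 1
    refine Finset.sum_congr rfl fun j hj => ?_
    rw [List.replicate_succ (n := j), List.cons_append, Sm]
    have : i + 1 - 1 - (j + 1) = i - 1 - j := by omega
    rw [this]

theorem Sm_cons_zero (d : ℕ) (φs : List (ℕ → R)) (c : List ℕ → R) :
    Sm d ((fun _ => 0) :: φs) c = 0 := by
  simp [Sm]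

theorem dS_cr (D : R → R) (d : ℕ) (a φ : ℕ → R) (ha : ∀ k, D (a k) = 0) (i : ℕ)
    (c : List ℕ → R) :
    dS D d (a :: List.replicate i φ) c = ∑ j ∈ Finset.range i,
      Sm d (a :: List.replicate j φ ++ (fun k => D (φ k)) :: List.replicate (i - 1 - j) φ) c := by
  rw [dS]
  simp only [ha, Sm_cons_zero, zero_add, dS_replicate, Finset.mul_sum]
  rw [Finset.sum_comm]
  refine Finset.sum_congr rfl fun j _ => ?_
  rw [List.cons_append, Sm]

theorem Sm_map {R' : Type} [CommRing R'] (f : R →+* R') (d : ℕ) (φs : List (ℕ → R)) :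
    ∀ c : List ℕ → R,
    f (Sm d φs c) = Sm d (φs.map fun φ k => f (φ k)) (fun l => f (c l)) := by
  induction φs with
  | nil => intro c; rfl
  | cons φ φs ih =>
    intro c
    simp only [Sm, List.map_cons, map_sum, map_mul]
    refine Finset.sum_congr rfl fun k _ => ?_
    rw [ih]

theorem Sm_mid_zero (d : ℕ) (φs ψs : List (ℕ → R)) (c : List ℕ → R) :
    Sm d (φs ++ (fun _ => 0) :: ψs) c = 0 := by
  rw [Sm_append]
  simp only [Sm_cons_zero, Sm_zero]

open Polynomial in
/-- the sum over the positions of `y` only sees the part of `W` away from `o` -/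
theorem Zlem (d n : ℕ) (c : List ℕ → R)
    (hZ : ∀ (z : ℕ → R[X]) (φs : List (ℕ → R[X])), φs.length = n + 1 →
      iS d z φs (fun l => C (c l)) = 0) (x y u o : ℕ → R) :
    ∑ i ∈ Finset.range (n + 1), Sm d (x :: List.replicate i (fun k => o k + u k) ++
      y :: List.replicate (n - i) o) c = Sm d (x :: List.replicate n u ++ [y]) c := by
  set W : ℕ → R[X] := fun k => X * C (o k) + C (u k) with hW
  set O : ℕ → R[X] := fun k => X * C (o k) with hO
  set o' : ℕ → R[X] := fun k => C (o k) with ho'
  set x' : ℕ → R[X] := fun k => C (x k) with hx'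
  set y' : ℕ → R[X] := fun k => C (y k) with hy'
  set c' : List ℕ → R[X] := fun l => C (c l) with hc'
  set D : R[X] →+ R[X] := (derivative : R[X] →ₗ[R] R[X]).toAddMonoidHom with hDdef
  have hD : ∀ a b, D (a * b) = D a * b + a * D b := fun a b => derivative_mul
  have hDW : (fun k => D (W k)) = o' := by
    funext k
    simp [hDdef, hW, ho']
  have hDO : (fun k => D (O k)) = o' := by
    funext k
    simp [hDdef, hO, ho']
  have hDx : ∀ k, D (x' k) = 0 := fun k => by simp [hDdef, hx']
  have hDy : ∀ k, D (y' k) = 0 := fun k => by simp [hDdef, hy']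
  have hDc : ∀ l, D (c' l) = 0 := fun l => by simp [hDdef, hc']
  set S : R[X] := ∑ i ∈ Finset.range (n + 1), Sm d ((x' :: List.replicate i W) ++
      (y' :: List.replicate (n - i) O)) c' with hS
  have hder : D S = 0 := by
    rw [hS, map_sum]
    have e1 : ∀ i ∈ Finset.range (n + 1), D (Sm d ((x' :: List.replicate i W) ++
        (y' :: List.replicate (n - i) O)) c') =
        ∑ j ∈ Finset.range i, Sm d ((x' :: List.replicate j W ++
          o' :: List.replicate (i - 1 - j) W) ++ (y' :: List.replicate (n - i) O)) c' +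
        ∑ j ∈ Finset.range (n - i), Sm d ((x' :: List.replicate i W) ++
          (y' :: List.replicate j O ++ o' :: List.replicate (n - i - 1 - j) O)) c' := by
      intro i _
      rw [D_Sm D hD _ _ _ hDc, dS_append]
      simp only [dS_cr D d _ _ hDx, dS_cr D d _ _ hDy, hDW, hDO]
      rw [Sm_sum]
      congr 1
      · refine Finset.sum_congr rfl fun j _ => ?_
        rw [← Sm_append]
      · refine Finset.sum_congr rfl fun j _ => ?_
        rw [← Sm_append]
    rw [Finset.sum_congr rfl e1, Finset.sum_add_distrib, Finset.sum_range_succ',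
      Finset.sum_range_succ (fun i => ∑ j ∈ Finset.range (n - i),
        Sm d ((x' :: List.replicate i W) ++
          (y' :: List.replicate j O ++ o' :: List.replicate (n - i - 1 - j) O)) c') n]
    simp only [Finset.range_zero, Finset.sum_empty, add_zero, Nat.sub_self]
    rw [← Finset.sum_add_distrib]
    refine Finset.sum_eq_zero fun i hi => ?_
    rw [Finset.mem_range] at hi
    have h := hZ o' ((x' :: List.replicate i W) ++ (y' :: List.replicate (n - 1 - i) O))
      (by simp; omega)
    rw [iS_append] at h
    simp only [iS_cr] at h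
    rw [Sm_sum] at h
    have A : ∑ j ∈ Finset.range (i + 1), Sm d ((x' :: List.replicate j W ++
          o' :: List.replicate (i + 1 - 1 - j) W) ++ (y' :: List.replicate (n - (i + 1)) O)) c' =
        ∑ j ∈ Finset.range (i + 1), Sm d (x' :: List.replicate j W ++
          o' :: List.replicate (i - j) W) (fun l => Sm d (y' :: List.replicate (n - 1 - i) O)
            (fun l' => c' (l ++ l'))) := by
      refine Finset.sum_congr rfl fun j _ => ?_
      have e2 : i + 1 - 1 - j = i - j := by omega
      have e3 : n - (i + 1) = n - 1 - i := by omega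
      rw [e2, e3, Sm_append]
    have B : ∑ j ∈ Finset.range (n - i), Sm d ((x' :: List.replicate i W) ++
          (y' :: List.replicate j O ++ o' :: List.replicate (n - i - 1 - j) O)) c' =
        ∑ j ∈ Finset.range (n - 1 - i + 1), Sm d (x' :: List.replicate i W)
          (fun l => Sm d (y' :: List.replicate j O ++ o' :: List.replicate (n - 1 - i - j) O)
            (fun l' => c' (l ++ l'))) := by
      have e4 : n - i = n - 1 - i + 1 := by omega
      rw [e4]
      refine Finset.sum_congr rfl fun j _ => ?_
      have e5 : n - 1 - i + 1 - 1 - j = n - 1 - i - j := by omega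
      rw [e5, Sm_append]
    rw [A, B]
    exact h
  have hconst : S.eval 1 = S.eval 0 := by
    have : IsAddTorsionFree R := IsAddTorsionFree.of_module_rat R
    have h1 : S.natDegree = 0 := derivative_eq_zero.1 hder
    rw [eq_C_of_natDegree_eq_zero h1]
    simp
  have hev : ∀ t : R, S.eval t = ∑ i ∈ Finset.range (n + 1),
      Sm d ((x :: List.replicate i (fun k => o k * t + u k)) ++
        (y :: List.replicate (n - i) (fun k => o k * t))) c := by
    intro t
    rw [hS, eval_finsetSum]
    refine Finset.sum_congr rfl fun i _ => ?_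
    have h1 := Sm_map (evalRingHom t) d ((x' :: List.replicate i W) ++
      (y' :: List.replicate (n - i) O)) c'
    rw [coe_evalRingHom] at h1
    rw [h1]
    simp [hx', hy', hW, hO, hc']
  rw [hev, hev] at hconst
  simp only [mul_one, mul_zero, zero_add] at hconst
  rw [Finset.sum_range_succ (fun i => Sm d ((x :: List.replicate i (fun k => u k)) ++
        (y :: List.replicate (n - i) (fun k => 0))) c) n] at hconst
  have h0 : ∀ i ∈ Finset.range n, Sm d ((x :: List.replicate i (fun k => u k)) ++
        (y :: List.replicate (n - i) (fun k => 0))) c = 0 := by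
    intro i hi
    rw [Finset.mem_range] at hi
    obtain ⟨r, hr⟩ : ∃ r, n - i = r + 1 := ⟨n - i - 1, by omega⟩
    have h1 := Sm_mid_zero d ((x :: List.replicate i (fun k => u k)) ++ [y])
      (List.replicate r (fun _ => (0 : R))) c
    rw [hr, List.replicate_succ]
    simpa using h1
  rw [Finset.sum_eq_zero h0, zero_add, Nat.sub_self] at hconst
  exact hconst

end Pool.Agent.Helper71.DS
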