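import Pool.Agent.Helper71.DS.Fun

/-!
# Parity for at most four letters
-/

set_option autoImplicit false

namespace Pool.Agent.Helper71.DS

open Pool.Agent.H777R4.DM
open Pool.Agent.Q299.LK (zz zz_append zz_cons part)
open Pool.Agent.Results.MP_ec2393_nt.LowestLetterPart

variable {P : A} {N m : ℕ}

theorem circW (hP : P ∈ LKV N m) (x : ℕ) (l : List ℕ) (hl : l ≠ []) :
    ∑ i ∈ Finset.range l.length, co P (W (x :: l.rotate i)) = 0 := hP.2.2.2 x l hl

theorem revW (hP : P ∈ LKV N m) (a : ℕ) (l : List ℕ) :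
    co P (W (a :: l).reverse) = (-1) ^ (N + 1) * co P (W (a :: l)) := by
  rw [W_reverse]
  have h := taskTwoB P hP.1 (W (a :: l))
  rw [h]
  by_cases h0 : co P (W (a :: l)) = 0
  · rw [h0]; simp
  · rw [(hP.2.1 _ h0).1]

theorem zero_of_coef (hP : P ∈ LKV N m) (h : ∀ a l, l.length = m → co P (W (a :: l)) = 0) :
    P = 0 := by
  refine Pool.Agent.Q299.LK.co_ext fun u => ?_
  rw [co_zero]
  by_contra h0
  obtain ⟨-, h2⟩ := hP.2.1 u h0
  obtain ⟨a, l, hu, hl⟩ := W_surj u
  apply h0
  rw [hu]
  exact h a l (by omega)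

theorem parity2 (hP : P ∈ LKV N 2) (hN : Odd N) : P = 0 := by
  refine zero_of_coef hP fun a l hl => ?_
  obtain ⟨b, c, rfl⟩ := List.length_eq_two.1 hl
  have h1 := circW hP a [b, c] (by simp)
  simp [Finset.sum_range_succ, List.rotate] at h1
  have h2 := revW hP a [b, c]
  rw [hN.add_one.neg_one_pow] at h2
  simp at h2
  have h3 : co P (W [a, c, b]) = co P (W [c, b, a]) :=
    (W_rot hP.2.2.1 [a, c, b] (by simp)).symm
  linarith

theorem parity3 (hP : P ∈ LKV N 3) (hN : Even N) : P = 0 := by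
  refine zero_of_coef hP fun a l hl => ?_
  obtain ⟨b, c, d, rfl⟩ := List.length_eq_three.1 hl
  have hC : ∀ a b c d, co P (W [a, b, c, d]) = co P (W [b, c, d, a]) :=
    fun a b c d => (W_rot hP.2.2.1 [a, b, c, d] (by simp)).symm
  have hR : ∀ a b c d, co P (W [d, c, b, a]) = - co P (W [a, b, c, d]) := by
    intro a b c d
    have h := revW hP a [b, c, d]
    rw [hN.add_one.neg_one_pow] at h
    simpa using h
  have z1 := circW hP a [b, d, c] (by simp)
  simp [Finset.sum_range_succ, List.rotate] at z1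
  have z2 := circW hP c [a, d, b] (by simp)
  simp [Finset.sum_range_succ, List.rotate] at z2
  have e2 := hR b c d a
  have e3 := hC a b c d
  have e4 := hC a c b d
  have e5 := hC c a d b
  have e6 := hR c b d a
  have e7 := hC a c d b
  have e8 := hR b d c a
  have e9 := hC a b d c
  have e10 := hR d a b c
  have e11 := hC d a b c
  linarith

theorem parity (hP : P ∈ LKV N m) (h2 : 2 ≤ m) (h4 : m ≤ 4) (hN : Odd (N + m)) : P = 0 := by
  obtain rfl | rfl | rfl : m = 2 ∨ m = 3 ∨ m = 4 := by omega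
  · exact parity2 hP (by rw [Nat.odd_add] at hN; exact hN.2 (by decide))
  · exact parity3 hP (by rw [Nat.odd_add'] at hN; exact hN.1 (by decide))
  · exact parity4 hP (by rw [Nat.odd_add] at hN; exact hN.2 (by decide))

end Pool.Agent.Helper71.DS
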