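import Pool.Graph.R_seed8.H352.DSH.TwoC

/-!
# The path lemma for Lie elements

`G u s` reads the word `u` along a list of states `s = [(z₀, v₀), …, (z_k, v_k)]`: the letter `x₁`
multiplies by `z` of the present state, the letter `x₀` either multiplies by `v` of the present state
or moves on to the next state.  For a Lie element the sum over the lattice paths of two lists of
states vanishes.
-/

set_option autoImplicit false
set_option linter.unusedSectionVars false

namespace Pool.Agent.Helper71.DS

open Pool.Agent.H777R4.DM Pool.Agent.H352.DSH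

attribute [local instance 100] LieRing.ofAssociativeRing

variable {R : Type} [CommRing R] [Algebra ℚ R]

/-- the value of the word along the states -/
def G : List (Fin 2) → List (R × R) → R
  | [], [] => 0
  | [], [_] => 1
  | [], _ :: _ :: _ => 0
  | _ :: _, [] => 0
  | i :: u, a :: r => if i = 1 then a.1 * G u (a :: r) else a.2 * G u (a :: r) + G u r

theorem G_nil (u : List (Fin 2)) : G u ([] : List (R × R)) = 0 := by
  cases u <;> rfl

theorem G_cons (i : Fin 2) (u : List (Fin 2)) (a : R × R) (r : List (R × R)) :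
    G (i :: u) (a :: r) = if i = 1 then a.1 * G u (a :: r) else a.2 * G u (a :: r) + G u r := rfl

/-- the lattice paths of two lists of states -/
def paths : List (R × R) → List (R × R) → List (List (R × R))
  | [], _ => []
  | _ :: _, [] => []
  | [a], [b] => [[a + b]]
  | [a], b :: c :: r' => (paths [a] (c :: r')).map (fun p => (a + b) :: p)
  | a :: c :: r, [b] => (paths (c :: r) [b]).map (fun p => (a + b) :: p)
  | a :: c :: r, b :: e :: r' =>
    (paths (c :: r) (b :: e :: r') ++ paths (a :: c :: r) (e :: r')).map (fun p => (a + b) :: p)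
termination_by s s' => s.length + s'.length

/-- the sum of `f` over the paths -/
def PS (f : List (R × R) → R) (s s' : List (R × R)) : R := ((paths s s').map f).sum

theorem PS_nil (f : List (R × R) → R) (s' : List (R × R)) : PS f [] s' = 0 := by
  simp [PS, paths]

theorem PS_nil' (f : List (R × R) → R) (s : List (R × R)) : PS f s [] = 0 := by
  cases s <;> simp [PS, paths]

theorem PS_cons (f : List (R × R) → R) (a b : R × R) (r r' : List (R × R))
    (h0 : f [a + b] = 0 ∨ r ≠ [] ∨ r' ≠ []) :
    PS f (a :: r) (b :: r') =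
      PS (fun p => f ((a + b) :: p)) r (b :: r') + PS (fun p => f ((a + b) :: p)) (a :: r) r' := by
  rcases r with _ | ⟨c, r⟩ <;> rcases r' with _ | ⟨e, r'⟩
  · rcases h0 with h | h | h
    · simp [PS, paths, h]
    · exact absurd rfl h
    · exact absurd rfl h
  · simp [PS, paths, Function.comp_def]
  · simp [PS, paths, Function.comp_def]
  · simp [PS, paths, Function.comp_def]

/-- functions of two lists of states -/
abbrev Fn (R : Type) : Type := List (R × R) × List (R × R) → R

/-- the action of a letter on the first list -/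
def X1 (i : Fin 2) : Module.End ℚ (Fn R) where
  toFun h := fun p => match p.1 with
    | [] => 0
    | a :: r => if i = 1 then a.1 * h (a :: r, p.2) else a.2 * h (a :: r, p.2) + h (r, p.2)
  map_add' h h' := by
    funext ⟨s, s'⟩
    rcases s with _ | ⟨a, r⟩
    · simp
    · simp only [Pi.add_apply]
      split_ifs <;> ring
  map_smul' c h := by
    funext ⟨s, s'⟩
    rcases s with _ | ⟨a, r⟩
    · simp
    · simp only [Pi.smul_apply, RingHom.id_apply]
      split_ifs
      · rw [mul_smul_comm]
      · rw [mul_smul_comm, smul_add]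

/-- the action of a letter on the second list -/
def X2 (i : Fin 2) : Module.End ℚ (Fn R) where
  toFun h := fun p => match p.2 with
    | [] => 0
    | a :: r => if i = 1 then a.1 * h (p.1, a :: r) else a.2 * h (p.1, a :: r) + h (p.1, r)
  map_add' h h' := by
    funext ⟨s, s'⟩
    rcases s' with _ | ⟨a, r⟩
    · simp
    · simp only [Pi.add_apply]
      split_ifs <;> ring
  map_smul' c h := by
    funext ⟨s, s'⟩
    rcases s' with _ | ⟨a, r⟩
    · simp
    · simp only [Pi.smul_apply, RingHom.id_apply]
      split_ifs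
      · rw [mul_smul_comm]
      · rw [mul_smul_comm, smul_add]

theorem X1_nil (i : Fin 2) (h : Fn R) (s' : List (R × R)) : X1 i h ([], s') = 0 := rfl

theorem X1_cons (i : Fin 2) (h : Fn R) (a : R × R) (r s' : List (R × R)) : X1 i h (a :: r, s') =
    if i = 1 then a.1 * h (a :: r, s') else a.2 * h (a :: r, s') + h (r, s') := rfl

theorem X2_nil (i : Fin 2) (h : Fn R) (s : List (R × R)) : X2 i h (s, []) = 0 := rfl

theorem X2_cons (i : Fin 2) (h : Fn R) (a : R × R) (r s : List (R × R)) : X2 i h (s, a :: r) =
    if i = 1 then a.1 * h (s, a :: r) else a.2 * h (s, a :: r) + h (s, r) := rfl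

theorem X_comm (i j : Fin 2) : Commute (X1 (R := R) i) (X2 (R := R) j) := by
  refine LinearMap.ext fun h => funext ?_
  rintro ⟨s, s'⟩
  rw [Module.End.mul_apply, Module.End.mul_apply]
  rcases s with _ | ⟨a, r⟩ <;> rcases s' with _ | ⟨b, r'⟩
  · rfl
  · rw [X1_nil, X2_cons, X1_nil, X1_nil]; simp
  · rw [X2_nil, X1_cons, X2_nil, X2_nil]; simp
  · rw [X1_cons, X2_cons, X2_cons, X2_cons, X1_cons, X1_cons]
    split_ifs <;> ring

/-- the algebra morphism with given values on the letters -/
noncomputable def lft {E : Type} [Ring E] [Algebra ℚ E] (X : Fin 2 → E) : A →ₐ[ℚ] E :=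
  MonoidAlgebra.lift ℚ E (FreeMonoid (Fin 2)) (FreeMonoid.lift X)

theorem lft_nil {E : Type} [Ring E] [Algebra ℚ E] (X : Fin 2 → E) : lft X (wd []) = 1 := by
  rw [wd_nil, map_one]

theorem lft_single {E : Type} [Ring E] [Algebra ℚ E] (X : Fin 2 → E) (i : Fin 2) :
    lft X (wd [i]) = X i := by
  simp [lft, wd]

theorem lft_cons {E : Type} [Ring E] [Algebra ℚ E] (X : Fin 2 → E) (i : Fin 2)
    (u : List (Fin 2)) : lft X (wd (i :: u)) = X i * lft X (wd u) := by
  rw [← List.singleton_append, wd_append, map_mul, lft_single]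

theorem lft_comm {E : Type} [Ring E] [Algebra ℚ E] (X Y : Fin 2 → E)
    (h : ∀ i j, Commute (X i) (Y j)) (P Q : A) : Commute (lft X P) (lft Y Q) := by
  have h1 : ∀ (i : Fin 2) (v : List (Fin 2)), Commute (X i) (lft Y (wd v)) := by
    intro i v
    induction v with
    | nil => rw [lft_nil]; exact Commute.one_right _
    | cons j v ih => rw [lft_cons]; exact (h i j).mul_right ih
  have h2 : ∀ (u v : List (Fin 2)), Commute (lft X (wd u)) (lft Y (wd v)) := by
    intro u v
    induction u with
    | nil => rw [lft_nil]; exact Commute.one_left _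
    | cons i u ih => rw [lft_cons]; exact (h1 i v).mul_left ih
  induction P using ind_words with
  | h0 => rw [map_zero]; exact Commute.zero_left _
  | hadd P P' h3 h4 => rw [map_add]; exact h3.add_left h4
  | hs c u =>
    rw [map_smul]
    refine Commute.smul_left ?_ c
    induction Q using ind_words with
    | h0 => rw [map_zero]; exact Commute.zero_right _
    | hadd P P' h3 h4 => rw [map_add]; exact h3.add_right h4
    | hs c' v =>
      rw [map_smul]
      exact Commute.smul_right (h2 u v) c'

theorem lft_lie {E : Type} [Ring E] [Algebra ℚ E] (X Y : Fin 2 → E)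
    (h : ∀ i j, Commute (X i) (Y j)) {P : A} (hP : P ∈ LieX) :
    lft (fun i => X i + Y i) P = lft X P + lft Y P := by
  unfold LieX at hP
  induction hP using LieSubalgebra.lieSpan_induction with
  | mem y hy =>
    rcases hy with rfl | rfl
    · unfold x
      rw [lft_single, lft_single, lft_single]
    · unfold x
      rw [lft_single, lft_single, lft_single]
  | zero => rw [map_zero, map_zero, map_zero, add_zero]
  | add P Q _ _ h3 h4 =>
    rw [map_add, map_add, map_add, h3, h4]
    abel
  | smul r P _ h3 => rw [map_smul, map_smul, map_smul, h3, smul_add]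
  | lie P Q _ _ h3 h4 =>
    have c1 := (lft_comm X Y h P Q).eq
    have c2 := (lft_comm X Y h Q P).eq
    rw [LieRing.of_associative_ring_bracket, map_sub, map_sub, map_sub, map_mul, map_mul, map_mul,
      map_mul, map_mul, map_mul, h3, h4]
    have e : (lft X P + lft Y P) * (lft X Q + lft Y Q) - (lft X Q + lft Y Q) * (lft X P + lft Y P) =
      lft X P * lft X Q - lft X Q * lft X P + (lft Y P * lft Y Q - lft Y Q * lft Y P) +
        (lft X P * lft Y Q - lft Y Q * lft X P) - (lft X Q * lft Y P - lft Y P * lft X Q) := by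
      noncomm_ring
    rw [e, c1, c2, sub_self, sub_self, add_zero, sub_zero]

/-- `1` on lists of length one, `0` on the other lists -/
def eps (s : List (R × R)) : R := G [] s

theorem act1 (u : List (Fin 2)) (s s' : List (R × R)) :
    lft (X1 (R := R)) (wd u) (fun p => eps p.1 * eps p.2) (s, s') = G u s * eps s' := by
  induction u generalizing s with
  | nil => rw [lft_nil]; rfl
  | cons i u ih =>
    rw [lft_cons, Module.End.mul_apply]
    rcases s with _ | ⟨a, r⟩
    · rw [X1_nil, G_nil, zero_mul]
    · rw [X1_cons, ih, ih, G_cons]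
      split_ifs <;> ring

theorem act2 (u : List (Fin 2)) (s s' : List (R × R)) :
    lft (X2 (R := R)) (wd u) (fun p => eps p.1 * eps p.2) (s, s') = eps s * G u s' := by
  induction u generalizing s' with
  | nil => rw [lft_nil]; rfl
  | cons i u ih =>
    rw [lft_cons, Module.End.mul_apply]
    rcases s' with _ | ⟨a, r⟩
    · rw [X2_nil, G_nil, mul_zero]
    · rw [X2_cons, ih, ih, G_cons]
      split_ifs <;> ring

theorem paths_ne (s s' p : List (R × R)) (h : p ∈ paths s s') : p ≠ [] := by
  rcases s with _ | ⟨a, _ | ⟨c, r⟩⟩ <;> rcases s' with _ | ⟨b, _ | ⟨e, r'⟩⟩ <;>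
    simp only [paths, List.mem_map, List.mem_singleton, List.not_mem_nil] at h
  · rw [h]; simp
  · obtain ⟨q, -, rfl⟩ := h; simp
  · obtain ⟨q, -, rfl⟩ := h; simp
  · obtain ⟨q, -, rfl⟩ := h; simp

theorem PS_zero (a : R × R) (s s' : List (R × R)) : PS (fun p => G [] (a :: p)) s s' = 0 := by
  unfold PS
  apply List.sum_eq_zero
  intro y hy
  rw [List.mem_map] at hy
  obtain ⟨p, hp, rfl⟩ := hy
  have := paths_ne s s' p hp
  rcases p with _ | ⟨b, p⟩
  · exact absurd rfl this
  · rfl

theorem PS_eps (s s' : List (R × R)) : PS (G []) s s' = eps s * eps s' := by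
  rcases s with _ | ⟨a, _ | ⟨c, r⟩⟩ <;> rcases s' with _ | ⟨b, _ | ⟨e, r'⟩⟩
  · simp [PS, paths, eps, G]
  · simp [PS, paths, eps, G]
  · simp [PS, paths, eps, G]
  · simp [PS, paths, eps, G]
  · simp [PS, paths, eps, G]
  · rw [PS_cons _ _ _ _ _ (by simp), PS_zero, PS_zero]
    simp [eps, G]
  · simp [PS, paths, eps, G]
  · rw [PS_cons _ _ _ _ _ (by simp), PS_zero, PS_zero]
    simp [eps, G]
  · rw [PS_cons _ _ _ _ _ (by simp), PS_zero, PS_zero]
    simp [eps, G]

theorem PS_mul (c : R) (f : List (R × R) → R) (s s' : List (R × R)) :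
    PS (fun p => c * f p) s s' = c * PS f s s' := by
  unfold PS
  rw [List.sum_map_mul_left]

theorem PS_add (f g : List (R × R) → R) (s s' : List (R × R)) :
    PS (fun p => f p + g p) s s' = PS f s s' + PS g s s' := by
  unfold PS
  rw [List.sum_map_add]

theorem PS_one (f : List (R × R) → R) (a b : R × R) : PS f [a] [b] = f [a + b] := by
  simp [PS, paths]

theorem PS_step (i : Fin 2) (u : List (Fin 2)) (a b : R × R) (r r' : List (R × R)) :
    PS (G (i :: u)) (a :: r) (b :: r') =
      if i = 1 then (a + b).1 * PS (G u) (a :: r) (b :: r') else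
      (a + b).2 * PS (G u) (a :: r) (b :: r') + (PS (G u) r (b :: r') + PS (G u) (a :: r) r') := by
  by_cases h0 : r ≠ [] ∨ r' ≠ []
  · rw [PS_cons _ _ _ _ _ (Or.inr h0), PS_cons (G u) _ _ _ _ (Or.inr h0)]
    simp only [G_cons]
    split_ifs
    · rw [PS_mul, PS_mul, mul_add]
    · rw [PS_add, PS_add, PS_mul, PS_mul]
      ring
  · push Not at h0
    obtain ⟨rfl, rfl⟩ := h0
    simp only [PS_one, G_cons, PS_nil, PS_nil', G_nil, add_zero]

theorem act12 (u : List (Fin 2)) (s s' : List (R × R)) :
    lft (E := Module.End ℚ (Fn R)) (fun i => X1 (R := R) i + X2 (R := R) i) (wd u)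
      (fun p => eps p.1 * eps p.2) (s, s') = PS (G u) s s' := by
  induction u generalizing s s' with
  | nil =>
    rw [lft_nil, PS_eps]
    rfl
  | cons i u ih =>
    rw [lft_cons, Module.End.mul_apply, LinearMap.add_apply, Pi.add_apply]
    rcases s with _ | ⟨a, r⟩ <;> rcases s' with _ | ⟨b, r'⟩
    · rw [X1_nil, X2_nil, PS_nil, add_zero]
    · rw [X1_nil, X2_cons, ih, ih, PS_nil, PS_nil, PS_nil]
      simp
    · rw [X2_nil, X1_cons, ih, ih, PS_nil', PS_nil', PS_nil']
      simp
    · rw [X1_cons, X2_cons, ih, ih, ih, PS_step]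
      split_ifs
      · rw [Prod.fst_add]; ring
      · rw [Prod.snd_add]; ring

/-- the value of an element along the states -/
noncomputable def GP (P : A) (s : List (R × R)) : R := lext (fun u => G u s) P

theorem GP_wd (u : List (Fin 2)) (s : List (R × R)) : GP (wd u) s = G u s := lext_wd _ _

theorem lin_ext {V : Type} [AddCommGroup V] [Module ℚ V] {f g : A →ₗ[ℚ] V}
    (h : ∀ u, f (wd u) = g (wd u)) (P : A) : f P = g P := by
  induction P using ind_words with
  | h0 => rw [map_zero, map_zero]
  | hadd P Q h3 h4 => rw [map_add, map_add, h3, h4]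
  | hs c u => rw [map_smul, map_smul, h]

/-- evaluation of an operator -/
noncomputable def evo (s s' : List (R × R)) : Module.End ℚ (Fn R) →ₗ[ℚ] R where
  toFun T := T (fun p => eps p.1 * eps p.2) (s, s')
  map_add' _ _ := rfl
  map_smul' _ _ := rfl

/-- the sum over the paths as a linear map -/
noncomputable def GPl (s : List (R × R)) : A →ₗ[ℚ] R := lext (fun u => G u s)

theorem PS_GP (P : A) (s s' : List (R × R)) : PS (GP P) s s' =
    lext (fun u => PS (G u) s s') P := by
  have h : ∀ L : List (List (R × R)), (L.map (GP P)).sum =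
      lext (fun u => (L.map (G u)).sum) P := by
    intro L
    induction L with
    | nil =>
      have : (lext (fun u : List (Fin 2) => (([] : List (List (R × R))).map (G u)).sum) :
          A →ₗ[ℚ] R) = 0 := by
        refine LinearMap.ext fun Q => ?_
        refine lin_ext (fun u => ?_) Q
        rw [lext_wd]
        simp
      rw [this]
      simp
    | cons p L ih =>
      rw [List.map_cons, List.sum_cons, ih]
      unfold GP
      rw [← LinearMap.add_apply]
      refine lin_ext (fun u => ?_) P
      rw [LinearMap.add_apply, lext_wd, lext_wd, lext_wd, List.map_cons, List.sum_cons]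
  exact h _

/-- the sum over the lattice paths, for a Lie element -/
theorem path_lie {P : A} (hP : P ∈ LieX) (s s' : List (R × R)) :
    PS (GP P) s s' = GP P s * eps s' + eps s * GP P s' := by
  have h1 := congrArg (evo s s') (lft_lie (E := Module.End ℚ (Fn R)) X1 X2 X_comm hP)
  rw [map_add] at h1
  have e0 : PS (GP P) s s' = ((evo s s') ∘ₗ
      (lft (E := Module.End ℚ (Fn R)) (fun i => X1 (R := R) i + X2 (R := R) i)).toLinearMap) P := by
    rw [PS_GP]
    refine lin_ext (fun u => ?_) P
    rw [lext_wd, ← act12]
    rfl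
  have e1 : GP P s * eps s' = ((evo s s') ∘ₗ
      (lft (E := Module.End ℚ (Fn R)) (X1 (R := R))).toLinearMap) P := by
    have : GP P s * eps s' = ((LinearMap.mulRight ℚ (eps s')) ∘ₗ lext (fun u => G u s)) P := rfl
    rw [this]
    refine lin_ext (fun u => ?_) P
    rw [LinearMap.comp_apply, lext_wd]
    exact (act1 u s s').symm
  have e2 : eps s * GP P s' = ((evo s s') ∘ₗ
      (lft (E := Module.End ℚ (Fn R)) (X2 (R := R))).toLinearMap) P := by
    have : eps s * GP P s' = ((LinearMap.mulLeft ℚ (eps s)) ∘ₗ lext (fun u => G u s')) P := rfl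
    rw [this]
    refine lin_ext (fun u => ?_) P
    rw [LinearMap.comp_apply, lext_wd]
    exact (act2 u s s').symm
  rw [e0, e1, e2]
  exact h1

end Pool.Agent.Helper71.DS
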