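import Pool.Agent.Helper71.DS.Two

/-!
# Runs of equal letters
-/

set_option autoImplicit false
set_option linter.unusedSectionVars false

namespace Pool.Agent.Helper71.DS

open Pool.Agent.H777R4.DM
open Pool.Agent.Q299.LK (zz zz_append zz_cons)
open Pool.Agent.Results.MP_ec2393_nt.LowestLetterPart

variable {R : Type} [CommRing R] [Algebra ℚ R]

theorem G_long (s : List (R × R)) (h : 2 ≤ s.length) : G [] s = 0 := by
  rcases s with _ | ⟨a, _ | ⟨b, s⟩⟩
  · simp at h
  · simp at h
  · rfl

/-- a run of a letter with weight -/
theorem G_run (u : List (Fin 2)) : ∀ (K : ℕ) (_ : u.length ≤ K) (z v : R)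
    (pre post : List (R × R)),
    G u (pre ++ (z, v) :: post) = ∑ g ∈ Finset.range (K + 1),
      v ^ g * G u (pre ++ (List.replicate (g + 1) (z, 0) ++ post)) := by
  induction u with
  | nil =>
    intro K _ z v pre post
    rw [Finset.sum_range_succ']
    have h0 : ∀ g ∈ Finset.range K, v ^ (g + 1) *
        G [] (pre ++ (List.replicate (g + 1 + 1) (z, (0 : R)) ++ post)) = 0 := by
      intro g _
      rw [G_long _ (by simp; omega), mul_zero]
    rw [Finset.sum_eq_zero h0, zero_add, pow_zero, one_mul]
    rcases pre with _ | ⟨a, pre⟩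
    · rcases post with _ | ⟨b, post⟩ <;> rfl
    · rw [G_long _ (by simp; omega), G_long _ (by simp; omega)]
  | cons i u ih =>
    intro K hK z v pre post
    rw [List.length_cons] at hK
    rcases pre with _ | ⟨a, pre⟩
    · simp only [List.nil_append]
      obtain ⟨K, rfl⟩ : ∃ K', K = K' + 1 := ⟨K - 1, by omega⟩
      rw [G_cons]
      split_ifs with hi
      · have h1 := ih (K + 1) (by omega) z v [] post
        simp only [List.nil_append] at h1
        rw [h1, Finset.mul_sum]
        refine Finset.sum_congr rfl fun g _ => ?_
        rw [List.replicate_succ, List.cons_append, G_cons, if_pos hi]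
        ring
      · have h1 := ih K (by omega) z v [] post
        simp only [List.nil_append] at h1
        rw [h1, Finset.mul_sum, Finset.sum_range_succ' (fun x => v ^ x *
          G (i :: u) (List.replicate (x + 1) (z, (0 : R)) ++ post)) (K + 1)]
        have e : ∀ g ∈ Finset.range (K + 1), v ^ (g + 1) *
            G (i :: u) (List.replicate (g + 1 + 1) (z, (0 : R)) ++ post) =
            v * (v ^ g * G u (List.replicate (g + 1) (z, 0) ++ post)) := by
          intro g _
          rw [List.replicate_succ (n := g + 1), List.cons_append, G_cons, if_neg hi]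
          ring
        rw [Finset.sum_congr rfl e]
        simp only [zero_add, List.replicate_one, List.cons_append, List.nil_append]
        rw [G_cons, if_neg hi]
        ring
    · simp only [List.cons_append]
      rw [G_cons]
      have h1 := ih K (by omega) z v (a :: pre) post
      have h2 := ih K (by omega) z v pre post
      simp only [List.cons_append] at h1
      rw [h1, h2, Finset.mul_sum, Finset.mul_sum, ← Finset.sum_add_distrib]
      split_ifs with hi
      · refine Finset.sum_congr rfl fun g _ => ?_
        rw [G_cons, if_pos hi]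
        ring
      · refine Finset.sum_congr rfl fun g _ => ?_
        rw [G_cons, if_neg hi]
        ring

theorem GP_run {P : A} {N m : ℕ} (hP : P ∈ LKV N m) (z v : R) (pre post : List (R × R)) :
    GP P (pre ++ (z, v) :: post) = ∑ g ∈ Finset.range (N + 1),
      v ^ g * GP P (pre ++ (List.replicate (g + 1) (z, 0) ++ post)) := by
  simp only [GP_apply, Finset.mul_sum]
  rw [Finset.sum_comm]
  refine Finset.sum_congr rfl fun k hk => ?_
  have h0 : co P (FreeMonoid.toList k) ≠ 0 := by simpa [co] using hk
  rw [G_run _ N (len_le hP _ h0), Finset.mul_sum]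
  refine Finset.sum_congr rfl fun g _ => ?_
  ring

theorem G_st_zero (u : List (Fin 2)) : ∀ (zs : List R), zs.length ≠ u.count 0 + 1 →
    G u (st zs) = 0 := by
  induction u with
  | nil =>
    intro zs h
    rcases zs with _ | ⟨a, _ | ⟨b, zs⟩⟩
    · rfl
    · simp at h
    · rfl
  | cons i u ih =>
    intro zs h
    rcases zs with _ | ⟨a, zs⟩
    · simp [st, G_nil]
    · have h1 := ih (a :: zs)
      have h2 := ih zs
      simp only [st, List.map_cons] at h1 h2 ⊢
      rw [G_cons]
      have hi : i = 0 ∨ i = 1 := by omega
      rcases hi with rfl | rfl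
      · rw [if_neg (by decide), zero_mul, zero_add]
        refine h2 fun h' => h ?_
        rw [List.length_cons, h', List.count_cons_self]
      · rw [if_pos rfl, h1, mul_zero]
        rw [List.count_cons_of_ne (by decide)] at h
        exact h

theorem F_len {P : A} {N m : ℕ} (hP : P ∈ LKV N m) (zs : List R) (h : zs.length ≠ m + 1) :
    GP P (st zs) = 0 := by
  rw [GP_apply]
  refine Finset.sum_eq_zero fun k hk => ?_
  have h0 : co P (FreeMonoid.toList k) ≠ 0 := by simpa [co] using hk
  rw [G_st_zero _ _ (by rw [(hP.2.1 _ h0).2]; exact h), mul_zero]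

theorem st_append (a b : List R) : st (a ++ b) = st a ++ st b := by simp [st]

theorem st_rep (z : R) (n : ℕ) : st (List.replicate n z) = List.replicate n (z, 0) := by
  simp [st]

/-- one run -/
theorem run1 {P : A} {N m : ℕ} (hP : P ∈ LKV N m) (hN : m ≤ N) (z v : R) (a b : List R) (r : ℕ)
    (hr : a.length + b.length + r = m) :
    GP P (st a ++ (z, v) :: st b) = v ^ r * GP P (st (a ++ List.replicate (r + 1) z ++ b)) := by
  rw [GP_run hP]
  have e : ∀ g, v ^ g * GP P (st a ++ (List.replicate (g + 1) (z, 0) ++ st b)) =
      v ^ g * GP P (st (a ++ List.replicate (g + 1) z ++ b)) := by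
    intro g
    rw [st_append, st_append, st_rep, List.append_assoc]
  simp only [e]
  rw [Finset.sum_eq_single r]
  · intro g _ hg
    rw [F_len hP _ (by simp; omega), mul_zero]
  · intro h
    exfalso
    apply h
    rw [Finset.mem_range]
    omega

/-- two runs -/
theorem run2 {P : A} {N m : ℕ} (hP : P ∈ LKV N m) (hN : m ≤ N) (z v z' v' : R)
    (a b c : List R) (r : ℕ) (hr : a.length + b.length + c.length + 1 + r = m) :
    GP P (st a ++ (z, v) :: (st b ++ (z', v') :: st c)) = ∑ g ∈ Finset.range (r + 1),
      v ^ g * v' ^ (r - g) * GP P (st (a ++ List.replicate (g + 1) z ++ b ++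
        List.replicate (r - g + 1) z' ++ c)) := by
  rw [GP_run hP]
  have e : ∀ g ∈ Finset.range (r + 1),
      v ^ g * GP P (st a ++ (List.replicate (g + 1) (z, 0) ++ (st b ++ (z', v') :: st c))) =
      v ^ g * v' ^ (r - g) * GP P (st (a ++ List.replicate (g + 1) z ++ b ++
        List.replicate (r - g + 1) z' ++ c)) := by
    intro g hg
    rw [Finset.mem_range] at hg
    have e1 : st a ++ (List.replicate (g + 1) (z, 0) ++ (st b ++ (z', v') :: st c)) =
        st (a ++ List.replicate (g + 1) z ++ b) ++ (z', v') :: st c := by
      simp [st_append, st_rep]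
    rw [e1, run1 hP hN z' v' (a ++ List.replicate (g + 1) z ++ b) c (r - g) (by simp; omega)]
    ring
  rw [← Finset.sum_congr rfl e]
  symm
  refine Finset.sum_subset (fun g hg => ?_) fun g _ hg => ?_
  · rw [Finset.mem_range] at hg ⊢
    omega
  · rw [Finset.mem_range] at hg
    have e1 : st a ++ (List.replicate (g + 1) (z, 0) ++ (st b ++ (z', v') :: st c)) =
        st (a ++ List.replicate (g + 1) z ++ b) ++ (z', v') :: st c := by
      simp [st_append, st_rep]
    rw [e1, GP_run hP]
    refine (mul_eq_zero_of_right _ (Finset.sum_eq_zero fun k _ => ?_))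
    have e2 : st (a ++ List.replicate (g + 1) z ++ b) ++
        (List.replicate (k + 1) (z', 0) ++ st c) =
        st (a ++ List.replicate (g + 1) z ++ b ++ List.replicate (k + 1) z' ++ c) := by
      simp [st_append, st_rep]
    rw [e2, F_len hP _ (by simp; omega), mul_zero]

end Pool.Agent.Helper71.DS
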