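import Mathlib

/-!
# Linear algebra: from one-letter insertions to shuffles
-/

set_option autoImplicit false

namespace Pool.Agent.Helper71.DS

theorem g22 (g : ℕ → ℕ → ℕ → ℕ → ℕ → ℚ)
    (hC : ∀ a b c d e, g a b c d e = g b c d e a)
    (hR : ∀ a b c d e, g e d c b a = - g a b c d e)
    (hZ : ∀ x a b c d, g x a b c d + g x b c d a + g x c d a b + g x d a b c = 0)
    (a b c d e : ℕ) : g a b c d e + g a b d c e + g a b d e c + g a d b c e + g a d b e c + g a d e b c = 0 := by
  have z0 := hZ c a b d e
  have z1 := hZ e a d b c
  have e0 : g a d b e c = - g a c e b d := (hR c e b d a).trans (congrArg Neg.neg ((hC c e b d a).trans ((hC e b d a c).trans ((hC b d a c e).trans (hC d a c e b)))))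
  have e1 : g a d e b c = - g a c b e d := (hR c b e d a).trans (congrArg Neg.neg ((hC c b e d a).trans ((hC b e d a c).trans ((hC e d a c b).trans (hC d a c b e)))))
  have e2 : g c a b d e = g a b d e c := hC c a b d e
  have e3 : g c b d e a = g a c b d e := (hC c b d e a).trans ((hC b d e a c).trans ((hC d e a c b).trans (hC e a c b d)))
  have e4 : g c d e a b = g a b c d e := (hC c d e a b).trans ((hC d e a b c).trans (hC e a b c d))
  have e5 : g c e a b d = g a b d c e := (hC c e a b d).trans (hC e a b d c)
  have e6 : g e a d b c = g a d b c e := hC e a d b c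
  have e7 : g e b c a d = - g a c b e d := (hR d a c b e).trans (congrArg Neg.neg (hC d a c b e))
  have e8 : g e c a d b = - g a c e b d := (hR b d a c e).trans (congrArg Neg.neg ((hC b d a c e).trans (hC d a c e b)))
  have e9 : g e d b c a = - g a c b d e := (hR a c b d e)
  linarith

theorem g23 (g : ℕ → ℕ → ℕ → ℕ → ℕ → ℕ → ℚ)
    (hC : ∀ a b c d e f, g a b c d e f = g b c d e f a)
    (hR : ∀ a b c d e f, g f e d c b a = g a b c d e f)
    (hZ : ∀ x a b c d e, g x a b c d e + g x b c d e a + g x c d e a b + g x d e a b c + g x e a b c d = 0)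
    (a b c d e f : ℕ) : g a b c d e f + g a b d c e f + g a b d e c f + g a b d e f c + g a d b c e f + g a d b e c f + g a d b e f c + g a d e b c f + g a d e b f c + g a d e f b c = 0 := by
  have z0 := hZ c a b d e f
  have z1 := hZ a b c f e d
  have z2 := hZ b a c f e d
  have z3 := hZ e a d b c f
  have e0 : g a c f e d b = g a b d e f c := (hR b d e f c a).trans ((hC b d e f c a).trans ((hC d e f c a b).trans ((hC e f c a b d).trans ((hC f c a b d e).trans (hC c a b d e f)))))
  have e1 : g a d b e f c = g a c f e b d := (hR c f e b d a).trans ((hC c f e b d a).trans ((hC f e b d a c).trans ((hC e b d a c f).trans ((hC b d a c f e).trans (hC d a c f e b)))))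
  have e2 : g a d e b f c = g a c f b e d := (hR c f b e d a).trans ((hC c f b e d a).trans ((hC f b e d a c).trans ((hC b e d a c f).trans ((hC e d a c f b).trans (hC d a c f b e)))))
  have e3 : g a d e f b c = g a c b f e d := (hR c b f e d a).trans ((hC c b f e d a).trans ((hC b f e d a c).trans ((hC f e d a c b).trans ((hC e d a c b f).trans (hC d a c b f e)))))
  have e4 : g a f e d b c = g a c b d e f := (hR c b d e f a).trans ((hC c b d e f a).trans ((hC b d e f a c).trans ((hC d e f a c b).trans ((hC e f a c b d).trans (hC f a c b d e)))))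
  have e5 : g b a c f e d = g a b d e f c := (hR d e f c a b).trans ((hC d e f c a b).trans ((hC e f c a b d).trans ((hC f c a b d e).trans (hC c a b d e f))))
  have e6 : g b c f e d a = g a b c f e d := (hC b c f e d a).trans ((hC c f e d a b).trans ((hC f e d a b c).trans ((hC e d a b c f).trans (hC d a b c f e))))
  have e7 : g b d a c f e = g a c f e b d := (hC b d a c f e).trans (hC d a c f e b)
  have e8 : g b e d a c f = g a c f b e d := (hC b e d a c f).trans ((hC e d a c f b).trans (hC d a c f b e))
  have e9 : g b f e d a c = g a c b f e d := (hC b f e d a c).trans ((hC f e d a c b).trans ((hC e d a c b f).trans (hC d a c b f e)))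
  have e10 : g c a b d e f = g a b d e f c := hC c a b d e f
  have e11 : g c b d e f a = g a c b d e f := (hC c b d e f a).trans ((hC b d e f a c).trans ((hC d e f a c b).trans ((hC e f a c b d).trans (hC f a c b d e))))
  have e12 : g c d e f a b = g a b c d e f := (hC c d e f a b).trans ((hC d e f a b c).trans ((hC e f a b c d).trans (hC f a b c d e)))
  have e13 : g c e f a b d = g a b d c e f := (hC c e f a b d).trans ((hC e f a b d c).trans (hC f a b d c e))
  have e14 : g c f a b d e = g a b d e c f := (hC c f a b d e).trans (hC f a b d e c)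
  have e15 : g e a d b c f = g a d b c f e := hC e a d b c f
  have e16 : g e b c f a d = g a d e b c f := (hC e b c f a d).trans ((hC b c f a d e).trans ((hC c f a d e b).trans (hC f a d e b c)))
  have e17 : g e c f a d b = g a d b e c f := (hC e c f a d b).trans ((hC c f a d b e).trans (hC f a d b e c))
  have e18 : g e d b c f a = g a e d b c f := (hC e d b c f a).trans ((hC d b c f a e).trans ((hC b c f a e d).trans ((hC c f a e d b).trans (hC f a e d b c))))
  have e19 : g e f a d b c = g a d b c e f := (hC e f a d b c).trans (hC f a d b c e)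
  linarith

theorem g12 (g : ℕ → ℕ → ℕ → ℕ → ℚ)
    (hC : ∀ a b c d, g a b c d = g b c d a)
    (hZ : ∀ x a b c, g x a b c + g x b c a + g x c a b = 0)
    (a b c d : ℕ) : g a b c d + g a c b d + g a c d b = 0 := by
  have z0 := hZ b a c d
  have e0 : g b a c d = g a c d b := hC b a c d
  have e1 : g b c d a = g a b c d := (hC b c d a).trans ((hC c d a b).trans (hC d a b c))
  have e2 : g b d a c = g a c b d := (hC b d a c).trans (hC d a c b)
  linarith

theorem g13 (g : ℕ → ℕ → ℕ → ℕ → ℕ → ℚ)
    (hC : ∀ a b c d e, g a b c d e = g b c d e a)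
    (hZ : ∀ x a b c d, g x a b c d + g x b c d a + g x c d a b + g x d a b c = 0)
    (a b c d e : ℕ) : g a b c d e + g a c b d e + g a c d b e + g a c d e b = 0 := by
  have z0 := hZ b a c d e
  have e0 : g b a c d e = g a c d e b := hC b a c d e
  have e1 : g b c d e a = g a b c d e := (hC b c d e a).trans ((hC c d e a b).trans ((hC d e a b c).trans (hC e a b c d)))
  have e2 : g b d e a c = g a c b d e := (hC b d e a c).trans ((hC d e a c b).trans (hC e a c b d))
  have e3 : g b e a c d = g a c d b e := (hC b e a c d).trans (hC e a c d b)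
  linarith

theorem g14 (g : ℕ → ℕ → ℕ → ℕ → ℕ → ℕ → ℚ)
    (hC : ∀ a b c d e f, g a b c d e f = g b c d e f a)
    (hZ : ∀ x a b c d e, g x a b c d e + g x b c d e a + g x c d e a b + g x d e a b c + g x e a b c d = 0)
    (a b c d e f : ℕ) : g a b c d e f + g a c b d e f + g a c d b e f + g a c d e b f + g a c d e f b = 0 := by
  have z0 := hZ b a c d e f
  have e0 : g b a c d e f = g a c d e f b := hC b a c d e f
  have e1 : g b c d e f a = g a b c d e f := (hC b c d e f a).trans ((hC c d e f a b).trans ((hC d e f a b c).trans ((hC e f a b c d).trans (hC f a b c d e))))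
  have e2 : g b d e f a c = g a c b d e f := (hC b d e f a c).trans ((hC d e f a c b).trans ((hC e f a c b d).trans (hC f a c b d e)))
  have e3 : g b e f a c d = g a c d b e f := (hC b e f a c d).trans ((hC e f a c d b).trans (hC f a c d b e))
  have e4 : g b f a c d e = g a c d e b f := (hC b f a c d e).trans (hC f a c d e b)
  linarith


end Pool.Agent.Helper71.DS
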