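import Pool.Agent.Helper71.DS.Path
import Pool.Graph.R_pool_sql_team_seeded_2aa45f1a.Q299.LK.Cyc

/-!
# Sums over exponents
-/

set_option autoImplicit false
set_option linter.unusedSectionVars false

namespace Pool.Agent.Helper71.DS

open Pool.Agent.H777R4.DM Pool.Agent.H352.DSH
open Pool.Agent.Q299.LK (zz zz_append zz_cons)

variable {R : Type} [CommRing R] [Algebra ℚ R]

/-- the sum of `c a ∏ φ_i (a_i)` over the lists of exponents at most `d` -/
def Sm (d : ℕ) : List (ℕ → R) → (List ℕ → R) → R
  | [], c => c []
  | φ :: φs, c => ∑ k ∈ Finset.range (d + 1), φ k * Sm d φs (fun l => c (k :: l))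

theorem Sm_congr (d : ℕ) (φs : List (ℕ → R)) : ∀ (c c' : List ℕ → R),
    (∀ l, l.length = φs.length → c l = c' l) → Sm d φs c = Sm d φs c' := by
  induction φs with
  | nil => intro c c' h; exact h [] rfl
  | cons φ φs ih =>
    intro c c' h
    refine Finset.sum_congr rfl fun k _ => ?_
    rw [ih _ _ fun l hl => h (k :: l) (by rw [List.length_cons, List.length_cons, hl])]

theorem Sm_mul (d : ℕ) (a : R) (φs : List (ℕ → R)) : ∀ (c : List ℕ → R),
    Sm d φs (fun l => a * c l) = a * Sm d φs c := by
  induction φs with
  | nil => intro c; rfl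
  | cons φ φs ih =>
    intro c
    simp only [Sm]
    rw [Finset.mul_sum]
    refine Finset.sum_congr rfl fun k _ => ?_
    rw [ih]
    ring

theorem Sm_zero (d : ℕ) (φs : List (ℕ → R)) : Sm d φs (fun _ => 0) = 0 := by
  have := Sm_mul d (0 : R) φs (fun _ => 0)
  simpa using this

theorem Sm_sum {ι : Type} (d : ℕ) (s : Finset ι) (φs : List (ℕ → R)) : ∀ (c : ι → List ℕ → R),
    Sm d φs (fun l => ∑ i ∈ s, c i l) = ∑ i ∈ s, Sm d φs (c i) := by
  induction φs with
  | nil => intro c; rfl
  | cons φ φs ih =>
    intro c
    simp only [Sm]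
    rw [Finset.sum_comm]
    refine Finset.sum_congr rfl fun k _ => ?_
    rw [ih, Finset.mul_sum]

theorem Sm_snoc (d : ℕ) (φ : ℕ → R) (φs : List (ℕ → R)) : ∀ (c : List ℕ → R),
    Sm d (φs ++ [φ]) c = ∑ k ∈ Finset.range (d + 1), φ k * Sm d φs (fun l => c (l ++ [k])) := by
  induction φs with
  | nil => intro c; simp [Sm]
  | cons ψ φs ih =>
    intro c
    simp only [List.cons_append, Sm]
    simp only [ih, Finset.mul_sum]
    rw [Finset.sum_comm]
    refine Finset.sum_congr rfl fun k _ => Finset.sum_congr rfl fun j _ => ?_
    ring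

theorem Sm_cyc (d : ℕ) (φ : ℕ → R) (φs : List (ℕ → R)) (c : List ℕ → R) :
    Sm d (φs ++ [φ]) c = Sm d (φ :: φs) (fun l => c (l.rotate 1)) := by
  rw [Sm_snoc]
  simp [Sm]

theorem Sm_rotate (d : ℕ) (i : ℕ) : ∀ (φs : List (ℕ → R)) (c : List ℕ → R),
    Sm d (φs.rotate i) c = Sm d φs (fun l => c (l.rotate i)) := by
  induction i with
  | zero => intro φs c; simp
  | succ i ih =>
    intro φs c
    rcases φs with _ | ⟨φ, φs⟩
    · simp [Sm]
    · rw [List.rotate_cons_succ, ih, Sm_cyc]
      refine Sm_congr _ _ _ _ fun l _ => ?_
      rw [List.rotate_rotate, Nat.add_comm]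

theorem Sm_reverse (d : ℕ) (φs : List (ℕ → R)) : ∀ (c : List ℕ → R),
    Sm d φs.reverse c = Sm d φs (fun l => c l.reverse) := by
  induction φs with
  | nil => intro c; simp [Sm]
  | cons φ φs ih =>
    intro c
    rw [List.reverse_cons, Sm_snoc]
    simp only [Sm, ih, List.reverse_cons]

/-- `(a₀, …, a_m) ↦ x₁^{a₀} x₀ x₁^{a₁} ⋯ x₀ x₁^{a_m}` -/
def W : List ℕ → List (Fin 2)
  | [] => []
  | a :: l => List.replicate a 1 ++ zz l

theorem zz_nil : zz [] = [] := rfl

theorem zz_W (a : ℕ) (l : List ℕ) : zz (a :: l) = 0 :: W (a :: l) := zz_cons a l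

theorem W_append (a : ℕ) (l l' : List ℕ) (b : ℕ) :
    W (a :: l ++ b :: l') = W (a :: l) ++ 0 :: W (b :: l') := by
  simp only [List.cons_append, W, zz_append, zz_cons, List.append_assoc]

theorem W_reverse (a : ℕ) (l : List ℕ) : W (a :: l).reverse = (W (a :: l)).reverse := by
  induction l generalizing a with
  | nil => simp [W, zz_nil]
  | cons b l ih =>
    have h : (a :: b :: l).reverse = (b :: l).reverse ++ [a] := by simp
    rw [h]
    obtain ⟨e, l', he⟩ : ∃ e l', (b :: l).reverse = e :: l' := by
      rcases h' : (b :: l).reverse with _ | ⟨e, l'⟩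
      · simp at h'
      · exact ⟨e, l', rfl⟩
    have h2 := ih b
    rw [he] at h2 ⊢
    rw [W_append, h2]
    simp only [W, zz_cons, zz_nil, List.append_nil]
    simp

/-- every word is a `W l` -/
theorem W_surj (u : List (Fin 2)) : ∃ a l, u = W (a :: l) ∧ l.length = u.count 0 := by
  induction u with
  | nil => exact ⟨0, [], by simp [W, zz_nil], rfl⟩
  | cons i u ih =>
    obtain ⟨a, l, h, h'⟩ := ih
    have hi : i = 0 ∨ i = 1 := by omega
    rcases hi with rfl | rfl
    · refine ⟨0, a :: l, ?_, ?_⟩
      · rw [h]; simp only [W, List.replicate_zero, List.nil_append, zz_cons]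
      · rw [List.length_cons, h', List.count_cons_self]
    · refine ⟨a + 1, l, ?_, ?_⟩
      · rw [h]; simp only [W, List.replicate_succ, List.cons_append]
      · rw [h', List.count_cons_of_ne (by decide)]

/-- the powers of a ring element -/
def pw (z : R) : ℕ → R := fun k => z ^ k

/-- the states without weights -/
def st (zs : List R) : List (R × R) := zs.map fun z => (z, 0)

theorem G_Sm (u : List (Fin 2)) : ∀ (d : ℕ) (_ : u.length ≤ d) (z : R) (zs : List R),
    G u (st (z :: zs)) = Sm d ((z :: zs).map pw) (fun l => if W l = u then 1 else 0) := by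
  induction u with
  | nil =>
    intro d _ z zs
    simp only [List.map_cons, Sm, st]
    rw [Finset.sum_range_succ']
    have h0 : ∀ k ∈ Finset.range d, pw z (k + 1) * Sm d (zs.map pw)
        (fun l => if W ((k + 1) :: l) = [] then (1 : R) else 0) = 0 := by
      intro k _
      have : (fun l => if W ((k + 1) :: l) = [] then (1 : R) else 0) = fun _ => 0 := by
        funext l
        rw [if_neg]
        simp [W, List.replicate_succ]
      rw [this, Sm_zero, mul_zero]
    rw [Finset.sum_eq_zero h0, zero_add]
    rcases zs with _ | ⟨w, zs⟩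
    · simp [G, Sm, pw, W, zz_nil]
    · have : ∀ (l : List ℕ), l.length = ((w :: zs).map (pw (R := R))).length →
          (if W (0 :: l) = [] then (1 : R) else 0) = 0 := by
        intro l hl
        rcases l with _ | ⟨a, l⟩
        · simp at hl
        · rw [if_neg]
          simp [W, zz_cons]
      rw [Sm_congr _ _ _ _ this, Sm_zero, mul_zero]
      rfl
  | cons i u ih =>
    intro d hd z zs
    rw [List.length_cons] at hd
    have hi : i = 0 ∨ i = 1 := by omega
    rcases hi with rfl | rfl
    · simp only [List.map_cons, Sm, st]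
      rw [G_cons, if_neg (by decide), Finset.sum_range_succ']
      have h0 : ∀ k ∈ Finset.range d, pw z (k + 1) * Sm d (zs.map pw)
          (fun l => if W ((k + 1) :: l) = 0 :: u then (1 : R) else 0) = 0 := by
        intro k _
        have : (fun l => if W ((k + 1) :: l) = 0 :: u then (1 : R) else 0) = fun _ => 0 := by
          funext l
          rw [if_neg]
          simp [W, List.replicate_succ]
        rw [this, Sm_zero, mul_zero]
      rw [Finset.sum_eq_zero h0, zero_add, zero_mul, zero_add]
      rcases zs with _ | ⟨w, zs⟩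
      · simp [G_nil, Sm, W, zz_nil]
      · have h1 := ih d (by omega) w zs
        rw [st, List.map_cons] at h1
        rw [List.map_cons, h1]
        have : ∀ (l : List ℕ), l.length = ((w :: zs).map (pw (R := R))).length →
            (if W (0 :: l) = 0 :: u then (1 : R) else 0) = if W l = u then 1 else 0 := by
          intro l hl
          rcases l with _ | ⟨a, l⟩
          · simp at hl
          · have e : W (0 :: a :: l) = 0 :: W (a :: l) := by
              simp only [W, List.replicate_zero, List.nil_append, zz_cons]
            rw [e]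
            simp
        rw [Sm_congr _ _ _ _ this]
        simp [pw]
    · simp only [List.map_cons, Sm, st]
      rw [G_cons, if_pos rfl, Finset.sum_range_succ']
      have h1 := ih d (by omega) z zs
      rw [st, List.map_cons] at h1
      rw [h1]
      simp only [List.map_cons, Sm]
      have e0 : Sm d (zs.map pw) (fun l => if W (0 :: l) = 1 :: u then (1 : R) else 0) = 0 := by
        have : (fun l => if W (0 :: l) = 1 :: u then (1 : R) else 0) = fun _ => 0 := by
          funext l
          rw [if_neg]
          rcases l with _ | ⟨a, l⟩ <;> simp [W, zz_cons, zz_nil]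
        rw [this, Sm_zero]
      rw [e0, mul_zero, add_zero, Finset.sum_range_succ]
      have e1 : Sm d (zs.map pw) (fun l => if W (d :: l) = u then (1 : R) else 0) = 0 := by
        have : (fun l => if W (d :: l) = u then (1 : R) else 0) = fun _ => 0 := by
          funext l
          rw [if_neg]
          intro h
          have := congrArg List.length h
          simp [W] at this
          omega
        rw [this, Sm_zero]
      rw [e1, mul_zero, add_zero, Finset.mul_sum]
      refine Finset.sum_congr rfl fun k _ => ?_
      have e2 : (fun l => if W ((k + 1) :: l) = 1 :: u then (1 : R) else 0) =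
          fun l => if W (k :: l) = u then 1 else 0 := by
        funext l
        simp only [W, List.replicate_succ, List.cons_append, List.cons.injEq, true_and]
        congr
      rw [e2]
      simp only [pw]
      ring

/-- `P` is a combination of words of length at most `d` -/
theorem GP_Sm {P : A} {d : ℕ} (hP : ∀ u, co P u ≠ 0 → u.length ≤ d) (z : R) (zs : List R) :
    GP P (st (z :: zs)) =
      Sm d ((z :: zs).map pw) (fun l => algebraMap ℚ R (co P (W l))) := by
  have e : GP P (st (z :: zs)) = ∑ m ∈ P.coeff.support,
      algebraMap ℚ R (co P (FreeMonoid.toList m)) * G (FreeMonoid.toList m) (st (z :: zs)) := by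
    unfold GP
    rw [Pool.Agent.H777R4.DM.lext_apply, Finsupp.sum]
    refine Finset.sum_congr rfl fun m _ => ?_
    rw [Algebra.smul_def]
    rfl
  rw [e]
  have e2 : ∀ m ∈ P.coeff.support, algebraMap ℚ R (co P (FreeMonoid.toList m)) *
      G (FreeMonoid.toList m) (st (z :: zs)) = Sm d ((z :: zs).map pw)
        (fun l => algebraMap ℚ R (co P (FreeMonoid.toList m)) *
          if W l = FreeMonoid.toList m then 1 else 0) := by
    intro m hm
    rw [Sm_mul, G_Sm _ d]
    exact hP _ (by simpa [co] using hm)
  rw [Finset.sum_congr rfl e2, ← Sm_sum]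
  refine Sm_congr _ _ _ _ fun l _ => ?_
  by_cases h : FreeMonoid.ofList (W l) ∈ P.coeff.support
  · rw [Finset.sum_eq_single (FreeMonoid.ofList (W l))]
    · simp
    · intro m _ hne
      rw [if_neg, mul_zero]
      intro h'
      apply hne
      rw [h']
      simp
    · intro h'; exact absurd h h'
  · rw [Finset.sum_eq_zero]
    · have : co P (W l) = 0 := by simpa [co] using h
      rw [this, map_zero]
    · intro m hm
      rw [if_neg, mul_zero]
      intro h'
      apply h
      rw [h']
      simpa using hm

end Pool.Agent.Helper71.DS
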