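import Pool.Agent.Helper71.DS.Div

/-!
# Words with three blocks; coefficients
-/

set_option autoImplicit false
set_option linter.unusedSectionVars false

namespace Pool.Agent.Helper71.DS

open Pool.Agent.H777R4.DM
open Pool.Agent.Q299.LK (zz zz_append zz_cons)
open Pool.Agent.Results.MP_ec2393_nt.LowestLetterPart

variable {R : Type} [CommRing R] [Algebra ℚ R]

/-- the letter which picks the exponent `i` -/
def dl (i : ℕ) : ℕ → R := fun k => if k = i then 1 else 0

theorem dl_zero : (dl 0 : ℕ → R) = pw 0 := by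
  funext k
  rcases k with _ | k <;> simp [dl, pw]

theorem Sm_dl (d : ℕ) (l : List ℕ) : ∀ (c : List ℕ → R), (∀ i ∈ l, i ≤ d) →
    Sm d (l.map dl) c = c l := by
  induction l with
  | nil => intro c _; rfl
  | cons i l ih =>
    intro c h
    rw [List.map_cons, Sm, Finset.sum_eq_single i]
    · rw [ih _ fun j hj => h j (List.mem_cons_of_mem _ hj)]
      simp [dl]
    · intro k _ hk
      simp [dl, hk]
    · intro hi
      exfalso
      apply hi
      have := h i List.mem_cons_self
      rw [Finset.mem_range]
      omega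

theorem co_big {P : A} {N m : ℕ} (hP : P ∈ LKV N m) (a : ℕ) (l : List ℕ)
    (h : ¬ ∀ i ∈ a :: l, i ≤ N) : co P (W (a :: l)) = 0 := by
  by_contra h0
  apply h
  intro i hi
  have h1 := (hP.2.1 _ h0).1
  have h3 : (W (a :: l)).count 1 = a + l.sum := by
    rw [W, List.count_append, zz_count1, List.count_replicate_self]
  have h4 := List.count_le_length (a := (1 : Fin 2)) (l := W (a :: l))
  have h5 : i ≤ (a :: l).sum := List.le_sum_of_mem hi
  rw [List.sum_cons] at h5
  omega

/-- the coefficients of the words with two blocks of `x₁` -/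
theorem co_two {P : A} {N m : ℕ} (hP : P ∈ LKV N m) (hm : 1 ≤ m) (i j a : ℕ) (ha : a + 1 ≤ m) :
    co P (W (i :: List.replicate a 0 ++ j :: List.replicate (m - 1 - a) 0)) =
      (-1) ^ a * ((m - 1).choose a : ℚ) * co P (W (i :: j :: List.replicate (m - 1) 0)) := by
  by_cases hij : i ≤ N ∧ j ≤ N
  · have h := Q_eq (R := ℚ) hP hm (dl i) (dl j) a ha
    unfold Q T at h
    have e1 : (dl i : ℕ → ℚ) :: List.replicate a (pw 0) ++ dl j ::
        List.replicate (m - 1 - a) (pw 0) =
        (i :: List.replicate a 0 ++ j :: List.replicate (m - 1 - a) 0).map dl := by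
      simp [dl_zero]
    have e2 : (dl i : ℕ → ℚ) :: List.replicate 0 (pw 0) ++ dl j ::
        List.replicate (m - 1 - 0) (pw 0) =
        (i :: j :: List.replicate (m - 1) 0).map dl := by
      simp [dl_zero]
    rw [e1, e2, Sm_dl, Sm_dl] at h
    · simpa using h
    · intro k hk
      simp only [List.mem_cons, List.mem_replicate] at hk
      omega
    · intro k hk
      simp only [List.mem_cons, List.mem_append, List.mem_replicate] at hk
      omega
  · rw [List.cons_append, co_big hP, co_big hP, mul_zero]
    · intro h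
      exact hij ⟨h i (by simp), h j (by simp)⟩
    · intro h
      exact hij ⟨h i (by simp), h j (by simp)⟩

theorem co_two_swap {P : A} {N m : ℕ} (hP : P ∈ LKV N m) (hm : 1 ≤ m) (i j : ℕ) :
    co P (W (j :: i :: List.replicate (m - 1) 0)) =
      (-1) ^ (m - 1) * co P (W (i :: j :: List.replicate (m - 1) 0)) := by
  have h := co_two hP hm i j (m - 1) (by omega)
  rw [Nat.choose_self, Nat.sub_self, Nat.cast_one, mul_one] at h
  rw [← h]
  have h2 := W_swap hP.2.2.1 (i :: List.replicate (m - 1) 0) [j] (by simp) (by simp)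
  exact h2.symm

theorem co_two_rev {P : A} {N m : ℕ} (hP : P ∈ LKV N m) (hm : 2 ≤ m) (i j : ℕ) :
    co P (W (j :: i :: List.replicate (m - 1) 0)) =
      (-1) ^ (N + 1) * co P (W (i :: j :: List.replicate (m - 1) 0)) := by
  rw [← revW hP i (j :: List.replicate (m - 1) 0)]
  have h2 := W_swap hP.2.2.1 (List.replicate (m - 1) 0) [j, i] (by
    intro h
    have := congrArg List.length h
    simp at this
    omega) (by simp)
  simpa using h2.symm

/-- words with three letters -/
noncomputable def H (P : A) (N : ℕ) (x y z : ℕ → R) (a b c : ℕ) : R :=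
  T P N ((x :: List.replicate a (pw 0)) ++ ((y :: List.replicate b (pw 0)) ++
    (z :: List.replicate c (pw 0))))

theorem rep_split (x : ℕ → R) (a j : ℕ) (hj : j < a + 1) :
    x :: List.replicate j (pw (0 : R)) ++ pw 0 :: List.replicate (a - j) (pw 0) =
      x :: List.replicate (a + 1) (pw 0) := by
  rw [← List.replicate_succ, List.cons_append, ← List.replicate_add]
  congr 2
  omega

theorem H_rec {P : A} {N m : ℕ} (hP : P ∈ LKV N m) (x y z : ℕ → R) (a b c : ℕ) :
    ((a : R) + 1) * H P N x y z (a + 1) b c + ((b : R) + 1) * H P N x y z a (b + 1) c +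
      ((c : R) + 1) * H P N x y z a b (c + 1) = 0 := by
  have h := iS_zero hP N (pw (0 : R)) ((x :: List.replicate a (pw 0)) ++
    ((y :: List.replicate b (pw 0)) ++ (z :: List.replicate c (pw 0)))) (by simp)
  rw [iS_append] at h
  simp only [iS_append] at h
  simp only [iS_cr] at h
  rw [Sm_add, Sm_sum] at h
  simp only [Sm_sum] at h
  have A : ∀ j ∈ Finset.range (a + 1), Sm N (x :: List.replicate j (pw (0 : R)) ++
      pw 0 :: List.replicate (a - j) (pw 0)) (fun l => Sm N (y :: List.replicate b (pw 0) ++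
        z :: List.replicate c (pw 0))
        (fun l' => algebraMap ℚ R (co P (W (l ++ l'))))) = H P N x y z (a + 1) b c := by
    intro j hj
    rw [Finset.mem_range] at hj
    rw [← Sm_append N _ _ (fun l => algebraMap ℚ R (co P (W l))), rep_split _ _ _ hj]
    rfl
  have B : ∀ j ∈ Finset.range (b + 1), Sm N (x :: List.replicate a (pw (0 : R)))
      (fun l => Sm N (y :: List.replicate j (pw (0 : R)) ++ pw 0 :: List.replicate (b - j) (pw 0))
        (fun l' => Sm N (z :: List.replicate c (pw 0))
          (fun l'' => algebraMap ℚ R (co P (W (l ++ (l' ++ l'')))))))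
      = H P N x y z a (b + 1) c := by
    intro j hj
    rw [Finset.mem_range] at hj
    rw [rep_split _ _ _ hj]
    unfold H T
    rw [Sm_append]
    refine Sm_congr _ _ _ _ fun l _ => ?_
    rw [Sm_append]
  have C : ∀ j ∈ Finset.range (c + 1), Sm N (x :: List.replicate a (pw (0 : R)))
      (fun l => Sm N (y :: List.replicate b (pw (0 : R)))
        (fun l' => Sm N (z :: List.replicate j (pw (0 : R)) ++
          pw 0 :: List.replicate (c - j) (pw 0))
          (fun l'' => algebraMap ℚ R (co P (W (l ++ (l' ++ l'')))))))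
      = H P N x y z a b (c + 1) := by
    intro j hj
    rw [Finset.mem_range] at hj
    rw [rep_split _ _ _ hj]
    unfold H T
    rw [Sm_append]
    refine Sm_congr _ _ _ _ fun l _ => ?_
    rw [Sm_append]
  rw [Finset.sum_congr rfl A, Finset.sum_congr rfl B, Finset.sum_congr rfl C, Finset.sum_const,
    Finset.sum_const, Finset.sum_const, Finset.card_range, Finset.card_range, Finset.card_range,
    nsmul_eq_mul, nsmul_eq_mul, nsmul_eq_mul] at h
  push_cast at h
  linear_combination h

/-- sums over the second and the third gap -/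
noncomputable def S3 (P : A) (N : ℕ) (x y z : ℕ → R) (k r : ℕ) : R :=
  ∑ j ∈ Finset.range (r + 1), H P N x y z k j (r - j)

theorem S3_rec {P : A} {N m : ℕ} (hP : P ∈ LKV N m) (x y z : ℕ → R) (k r : ℕ) :
    ((k : R) + 1) * S3 P N x y z (k + 1) r + ((r : R) + 1) * S3 P N x y z k (r + 1) = 0 := by
  have h : ∑ j ∈ Finset.range (r + 1), (((k : R) + 1) * H P N x y z (k + 1) j (r - j) +
      ((j : R) + 1) * H P N x y z k (j + 1) (r - j) +
      (((r - j : ℕ) : R) + 1) * H P N x y z k j (r - j + 1)) = 0 :=
    Finset.sum_eq_zero fun j _ => H_rec hP x y z k j (r - j)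
  rw [Finset.sum_add_distrib, Finset.sum_add_distrib, ← Finset.mul_sum] at h
  have e1 : ∑ j ∈ Finset.range (r + 1), ((j : R) + 1) * H P N x y z k (j + 1) (r - j) =
      ∑ j ∈ Finset.range (r + 1 + 1), (j : R) * H P N x y z k j (r + 1 - j) := by
    rw [Finset.sum_range_succ' _ (r + 1)]
    simp only [Nat.cast_zero, zero_mul, add_zero]
    refine Finset.sum_congr rfl fun j _ => ?_
    rw [show r + 1 - (j + 1) = r - j by omega]
    push_cast
    ring
  have e2 : ∑ j ∈ Finset.range (r + 1), (((r - j : ℕ) : R) + 1) * H P N x y z k j (r - j + 1) =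
      ∑ j ∈ Finset.range (r + 1 + 1), ((r : R) + 1 - j) * H P N x y z k j (r + 1 - j) := by
    rw [Finset.sum_range_succ _ (r + 1)]
    have : ((r : R) + 1 - ((r + 1 : ℕ) : R)) = 0 := by push_cast; ring
    rw [this, zero_mul, add_zero]
    refine Finset.sum_congr rfl fun j hj => ?_
    rw [Finset.mem_range] at hj
    rw [show r - j + 1 = r + 1 - j by omega, Nat.cast_sub (by omega)]
    ring
  rw [e1, e2, add_assoc, ← Finset.sum_add_distrib] at h
  unfold S3
  rw [Finset.mul_sum (Finset.range (r + 1 + 1))]
  rw [← h]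
  congr 1
  refine Finset.sum_congr rfl fun j _ => ?_
  ring

theorem unit_succ (a : ℕ) : IsUnit ((a : R) + 1) := by
  have : ((a : R) + 1) = algebraMap ℚ R ((a : ℚ) + 1) := by simp
  rw [this]
  exact (IsUnit.mk0 _ (by positivity)).map _

theorem S3_eq {P : A} {N m : ℕ} (hP : P ∈ LKV N m) (x y z : ℕ → R) (M k : ℕ) (hk : k ≤ M) :
    S3 P N x y z k (M - k) = (-1) ^ k * (M.choose k : R) * S3 P N x y z 0 M := by
  induction k with
  | zero => simp
  | succ k ih =>
    have h := S3_rec hP x y z k (M - (k + 1))
    rw [show M - (k + 1) + 1 = M - k by omega, ih (by omega)] at h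
    have h1 : (M.choose (k + 1) : R) * ((k : R) + 1) =
        (M.choose k : R) * (((M - (k + 1) : ℕ) : R) + 1) := by
      have := Nat.choose_succ_right_eq M k
      rw [show M - k = M - (k + 1) + 1 by omega] at this
      exact_mod_cast congrArg (Nat.cast (R := R)) this
    refine (unit_succ (R := R) k).mul_left_cancel ?_
    have h4 : ((k : R) + 1) * ((-1) ^ (k + 1) * (M.choose (k + 1) : R) * S3 P N x y z 0 M) =
      (-1) ^ (k + 1) * ((M.choose (k + 1) : R) * ((k : R) + 1)) * S3 P N x y z 0 M := by ring
    rw [h4, h1]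
    linear_combination h

theorem H_last {P : A} {N m : ℕ} (hP : P ∈ LKV N m) (x y z : ℕ → R) (M : ℕ) :
    H P N x y z M 0 0 = (-1) ^ M * S3 P N x y z 0 M := by
  have h := S3_eq hP x y z M M le_rfl
  rw [Nat.choose_self, Nat.cast_one, mul_one, Nat.sub_self] at h
  rw [← h]
  simp [S3]

/-- insertion of the letter `x` into the word `y z o^M` -/
theorem ins3 {P : A} {N m : ℕ} (hP : P ∈ LKV N m) (x y z : ℕ → R) (M : ℕ) :
    H P N y x z 0 0 M + S3 P N y z x 0 M = 0 := by
  have h := iS_zero hP N x ((y :: List.replicate 0 (pw (0 : R))) ++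
    (z :: List.replicate M (pw 0))) (by simp)
  rw [iS_append] at h
  simp only [iS_cr] at h
  rw [Sm_sum, Finset.sum_range_one] at h
  have e1 : Sm N (y :: List.replicate 0 (pw (0 : R)) ++ x :: List.replicate (0 - 0) (pw 0))
      (fun l => Sm N (z :: List.replicate M (pw 0))
        (fun l' => algebraMap ℚ R (co P (W (l ++ l'))))) = H P N y x z 0 0 M := by
    rw [← Sm_append N _ _ (fun l => algebraMap ℚ R (co P (W l)))]
    simp [H, T]
  have e2 : ∀ j ∈ Finset.range (M + 1), Sm N (y :: List.replicate 0 (pw (0 : R)))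
      (fun l => Sm N (z :: List.replicate j (pw 0) ++ x :: List.replicate (M - j) (pw 0))
        (fun l' => algebraMap ℚ R (co P (W (l ++ l'))))) = H P N y z x 0 j (M - j) := by
    intro j _
    rw [← Sm_append N _ _ (fun l => algebraMap ℚ R (co P (W l)))]
    simp [H, T]
  rw [e1, Finset.sum_congr rfl e2] at h
  exact h

/-- the coefficients of the words with three blocks of `x₁` -/
theorem co_three {P : A} {N m : ℕ} (hP : P ∈ LKV N m) (hm : 2 ≤ m) (i j k : ℕ) :
    co P (W (j :: i :: k :: List.replicate (m - 2) 0)) =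
      (-1) ^ (m - 1) * co P (W (k :: i :: j :: List.replicate (m - 2) 0)) := by
  obtain ⟨M, rfl⟩ : ∃ M, m = M + 2 := ⟨m - 2, by omega⟩
  simp only [Nat.add_sub_cancel, show M + 2 - 1 = M + 1 by omega]
  by_cases hijk : i ≤ N ∧ j ≤ N ∧ k ≤ N
  · have h1 := ins3 (R := ℚ) hP (dl i) (dl j) (dl k) M
    have h2 := H_last (R := ℚ) hP (dl j) (dl k) (dl i) M
    have e1 : H P N (dl j) (dl i) (dl k) 0 0 M = (co P (W (j :: i :: k :: List.replicate M 0))) := by
      unfold H T
      have e : ((dl j : ℕ → ℚ) :: List.replicate 0 (pw 0)) ++ ((dl i :: List.replicate 0 (pw 0)) ++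
          (dl k :: List.replicate M (pw 0))) = (j :: i :: k :: List.replicate M 0).map dl := by
        simp [dl_zero]
      rw [e, Sm_dl]
      · rfl
      · intro t ht
        simp only [List.mem_cons, List.mem_replicate] at ht
        omega
    have e2 : H P N (dl j) (dl k) (dl i) M 0 0 = co P (W (j :: List.replicate M 0 ++ [k, i])) := by
      unfold H T
      have e : ((dl j : ℕ → ℚ) :: List.replicate M (pw 0)) ++ ((dl k :: List.replicate 0 (pw 0)) ++
          (dl i :: List.replicate 0 (pw 0))) = (j :: List.replicate M 0 ++ [k, i]).map dl := by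
        simp [dl_zero]
      rw [e, Sm_dl]
      · rfl
      · intro t ht
        simp only [List.mem_cons, List.mem_append, List.mem_replicate, List.not_mem_nil,
          or_false] at ht
        omega
    have e3 : co P (W (j :: List.replicate M 0 ++ [k, i])) =
        co P (W (k :: i :: j :: List.replicate M 0)) :=
      W_swap hP.2.2.1 _ _ (by simp) (by simp)
    rw [e1] at h1
    rw [e2, e3] at h2
    have h3 : ((-1 : ℚ) ^ M) * (-1) ^ M = 1 := by rw [← pow_add, Even.neg_one_pow ⟨M, rfl⟩]
    rw [h2, pow_succ]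
    linear_combination h1 + S3 P N (dl j) (dl k) (dl i) 0 M * h3
  · rw [co_big hP, co_big hP, mul_zero]
    · intro h
      exact hijk ⟨h i (by simp), h j (by simp), h k (by simp)⟩
    · intro h
      exact hijk ⟨h i (by simp), h j (by simp), h k (by simp)⟩

theorem co_three_rev {P : A} {N m : ℕ} (hP : P ∈ LKV N m) (hm : 3 ≤ m) (i j k : ℕ) :
    co P (W (j :: i :: k :: List.replicate (m - 2) 0)) =
      (-1) ^ (N + 1) * co P (W (k :: i :: j :: List.replicate (m - 2) 0)) := by
  rw [← revW hP k (i :: j :: List.replicate (m - 2) 0)]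
  have h2 := W_swap hP.2.2.1 (List.replicate (m - 2) 0) [j, i, k] (by
    intro h
    have := congrArg List.length h
    simp at this
    omega) (by simp)
  simpa using h2.symm

end Pool.Agent.Helper71.DS
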