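import Pool.Agent.Helper71.DS.Ins

/-!
# Words with two blocks
-/

set_option autoImplicit false
set_option linter.unusedSectionVars false

namespace Pool.Agent.Helper71.DS

open Pool.Agent.H777R4.DM
open Pool.Agent.Q299.LK (zz zz_append zz_cons)
open Pool.Agent.Results.MP_ec2393_nt.LowestLetterPart

variable {R : Type} [CommRing R] [Algebra ℚ R]

theorem W_swap {P : A} (hpush : ∀ u v, co P (u ++ 0 :: v) = co P (v ++ 0 :: u)) (l l' : List ℕ)
    (hl : l ≠ []) (hl' : l' ≠ []) : co P (W (l ++ l')) = co P (W (l' ++ l)) := by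
  rcases l with _ | ⟨a, l⟩
  · exact absurd rfl hl
  rcases l' with _ | ⟨b, l'⟩
  · exact absurd rfl hl'
  rw [W_append, W_append]
  exact hpush _ _

theorem cIns_zero {P : A} {N m : ℕ} (hP : P ∈ LKV N m) (k : ℕ) (a : List ℕ) (ha : a ≠ []) :
    cIns k a (fun l => algebraMap ℚ R (co P (W l))) = 0 := by
  rw [cIns_eq, ← map_sum]
  have e : ∀ r ∈ Finset.range a.length, co P (W (a.take (r + 1) ++ k :: a.drop (r + 1))) =
      co P (W (k :: a.rotate (r + 1))) := by
    intro r hr
    rw [Finset.mem_range] at hr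
    rw [W_swap hP.2.2.1 _ _ (by
      rcases a with _ | ⟨b, a⟩
      · exact absurd rfl ha
      · simp) (by simp), List.rotate_eq_drop_append_take (by omega), List.cons_append]
  rw [Finset.sum_congr rfl e]
  have h1 := Finset.sum_range_succ (fun r => co P (W (k :: a.rotate r))) a.length
  have h2 := Finset.sum_range_succ' (fun r => co P (W (k :: a.rotate r))) a.length
  rw [h1, circW hP k a ha, List.rotate_length, List.rotate_zero] at h2
  have h3 : ∑ r ∈ Finset.range a.length, co P (W (k :: a.rotate (r + 1))) = 0 := by linarith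
  rw [h3, map_zero]

theorem iS_zero {P : A} {N m : ℕ} (hP : P ∈ LKV N m) (d : ℕ) (z : ℕ → R) (φs : List (ℕ → R))
    (h : φs ≠ []) : iS d z φs (fun l => algebraMap ℚ R (co P (W l))) = 0 := by
  rw [iS_eq, ← Sm_zero d φs]
  refine Sm_congr _ _ _ _ fun a ha => ?_
  refine Finset.sum_eq_zero fun k _ => ?_
  rw [cIns_zero hP k a (by rintro rfl; apply h; simpa using ha.symm), mul_zero]

/-- the letter functional -/
noncomputable def T (P : A) (N : ℕ) (φs : List (ℕ → R)) : R :=
  Sm N φs (fun l => algebraMap ℚ R (co P (W l)))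

theorem Sm_pull (d : ℕ) (a : R) (φ : ℕ → R) (n : ℕ) (ψs : List (ℕ → R)) : ∀ c : List ℕ → R,
    Sm d (List.replicate n (fun k => a * φ k) ++ ψs) c =
      a ^ n * Sm d (List.replicate n φ ++ ψs) c := by
  induction n with
  | zero => intro c; simp
  | succ n ih =>
    intro c
    rw [List.replicate_succ, List.replicate_succ, List.cons_append, List.cons_append, Sm, Sm,
      Finset.mul_sum]
    refine Finset.sum_congr rfl fun k _ => ?_
    rw [ih]
    ring

theorem T_Z {P : A} {N m : ℕ} (hP : P ∈ LKV N m) (hm : 1 ≤ m) (x y : ℕ → R) (w : R) :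
    w ^ (m - 1) ∣ ∑ i ∈ Finset.range m, T P N (x :: List.replicate i (pw w) ++
      y :: List.replicate (m - 1 - i) (pw 0)) := by
  have hZ : ∀ (z : ℕ → Polynomial R) (φs : List (ℕ → Polynomial R)), φs.length = m - 1 + 1 →
      iS N z φs (fun l => Polynomial.C (algebraMap ℚ R (co P (W l)))) = 0 := by
    intro z φs h
    exact iS_zero hP N z φs (by rintro rfl; simp at h)
  have h := Zlem N (m - 1) _ hZ x y (fun k => w * (if k = 0 then 0 else w ^ (k - 1))) (pw 0)
  have e : (fun k => pw (0 : R) k + w * (if k = 0 then 0 else w ^ (k - 1))) = pw w := by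
    funext k
    rcases k with _ | k
    · simp [pw]
    · simp [pw, pow_succ, mul_comm]
  rw [e] at h
  have hm' : m - 1 + 1 = m := by omega
  rw [hm'] at h
  unfold T
  rw [h]
  refine ⟨Sm N (x :: List.replicate (m - 1) (fun k => if k = 0 then 0 else w ^ (k - 1)) ++ [y])
    (fun l => algebraMap ℚ R (co P (W l))), ?_⟩
  rw [List.cons_append, List.cons_append, Sm, Sm, Finset.mul_sum]
  refine Finset.sum_congr rfl fun k _ => ?_
  rw [Sm_pull]
  ring

/-- the words with two letters different from `0` -/
noncomputable def Q (P : A) (N m : ℕ) (a : ℕ) (x y : ℕ → R) : R :=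
  T P N (x :: List.replicate a (pw 0) ++ y :: List.replicate (m - 1 - a) (pw 0))

theorem Q_rec {P : A} {N m : ℕ} (hP : P ∈ LKV N m) (a : ℕ) (ha : a + 2 ≤ m) (x y : ℕ → R) :
    ((a : R) + 1) * Q P N m (a + 1) x y + ((m : R) - 1 - a) * Q P N m a x y = 0 := by
  obtain ⟨b, rfl⟩ : ∃ b, m = a + b + 2 := ⟨m - 2 - a, by omega⟩
  have h := iS_zero hP N (pw (0 : R)) ((x :: List.replicate a (pw 0)) ++
    (y :: List.replicate b (pw 0))) (by simp)
  rw [iS_append] at h
  simp only [iS_cr] at h
  rw [Sm_sum] at h
  have A : ∀ j ∈ Finset.range (a + 1), Sm N (x :: List.replicate j (pw (0 : R)) ++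
      pw 0 :: List.replicate (a - j) (pw 0)) (fun l => Sm N (y :: List.replicate b (pw 0))
        (fun l' => algebraMap ℚ R (co P (W (l ++ l'))))) = Q P N (a + b + 2) (a + 1) x y := by
    intro j hj
    rw [Finset.mem_range] at hj
    rw [← Sm_append N _ _ (fun l => algebraMap ℚ R (co P (W l)))]
    unfold Q T
    have e1 : a + b + 2 - 1 - (a + 1) = b := by omega
    have e2 : x :: List.replicate j (pw (0 : R)) ++ pw 0 :: List.replicate (a - j) (pw 0) =
        x :: List.replicate (a + 1) (pw 0) := by
      rw [← List.replicate_succ, List.cons_append, ← List.replicate_add]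
      congr 2
      omega
    rw [e1, e2]
  have B : ∀ j ∈ Finset.range (b + 1), Sm N (x :: List.replicate a (pw (0 : R)))
      (fun l => Sm N (y :: List.replicate j (pw (0 : R)) ++ pw 0 :: List.replicate (b - j) (pw 0))
        (fun l' => algebraMap ℚ R (co P (W (l ++ l'))))) = Q P N (a + b + 2) a x y := by
    intro j hj
    rw [Finset.mem_range] at hj
    rw [← Sm_append N _ _ (fun l => algebraMap ℚ R (co P (W l)))]
    unfold Q T
    have e1 : a + b + 2 - 1 - a = b + 1 := by omega
    have e2 : y :: List.replicate j (pw (0 : R)) ++ pw 0 :: List.replicate (b - j) (pw 0) =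
        y :: List.replicate (b + 1) (pw 0) := by
      rw [← List.replicate_succ, List.cons_append, ← List.replicate_add]
      congr 2
      omega
    rw [e1, e2]
  rw [Finset.sum_congr rfl A, Finset.sum_congr rfl B, Finset.sum_const, Finset.sum_const,
    Finset.card_range, Finset.card_range, nsmul_eq_mul, nsmul_eq_mul] at h
  push_cast at h ⊢
  linear_combination h

theorem Q_eq {P : A} {N m : ℕ} (hP : P ∈ LKV N m) (hm : 1 ≤ m) (x y : ℕ → R) (a : ℕ)
    (ha : a + 1 ≤ m) :
    Q P N m a x y = (-1) ^ a * ((m - 1).choose a : R) * Q P N m 0 x y := by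
  induction a with
  | zero => simp
  | succ a ih =>
    have h := Q_rec hP a (by omega) x y
    rw [ih (by omega)] at h
    have h1 : ((m - 1).choose (a + 1) : R) * ((a : R) + 1) =
        ((m - 1).choose a : R) * ((m : R) - 1 - a) := by
      have := Nat.choose_succ_right_eq (m - 1) a
      have h2 : ((m - 1 - a : ℕ) : R) = (m : R) - 1 - a := by
        rw [Nat.cast_sub (by omega), Nat.cast_sub (by omega)]
        simp
      rw [← h2]
      exact_mod_cast congrArg (Nat.cast (R := R)) this
    have hu : IsUnit ((a : R) + 1) := by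
      have : ((a : R) + 1) = algebraMap ℚ R ((a : ℚ) + 1) := by simp
      rw [this]
      exact (IsUnit.mk0 _ (by positivity)).map _
    have h3 : ((a : R) + 1) * (Q P N m (a + 1) x y) =
        ((a : R) + 1) * ((-1) ^ (a + 1) * ((m - 1).choose (a + 1) : R) * Q P N m 0 x y) := by
      have h4 : ((a : R) + 1) * ((-1) ^ (a + 1) * ((m - 1).choose (a + 1) : R) * Q P N m 0 x y) =
        (-1) ^ (a + 1) * (((m - 1).choose (a + 1) : R) * ((a : R) + 1)) * Q P N m 0 x y := by ring
      rw [h4, h1]
      linear_combination h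
    exact hu.mul_left_cancel h3

end Pool.Agent.Helper71.DS
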